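import Mathlib

/-!
# Points close to fractions with a given denominator
-/

namespace Pool.Agent.H237.Gap

open MeasureTheory Set

/-- If `V y` and `V' y` are both close to `0`, `a` divides `V` and is prime to `V'`, then
already `(V / a) y` is close to `0`. -/
lemma near_div {a W V' : ℕ} (ha : 0 < a) (hW : 0 < W) (hco : Nat.Coprime a V')
    {r r' : ℝ} (hle : r * V' + r' * (a * W : ℕ) ≤ 1) (hV' : 0 < V')
    {y : UnitAddCircle} (h1 : ‖(a * W) • y‖ < r) (h2 : ‖V' • y‖ < r') :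
    ‖W • y‖ < r / a := by
  obtain ⟨t, rfl⟩ := QuotientAddGroup.mk_surjective y
  have e1 : ((a * W) • ((t : ℝ) : UnitAddCircle)) = (((a * W : ℕ) * t : ℝ) : UnitAddCircle) := by
    rw [← AddCircle.coe_nsmul, nsmul_eq_mul]
  have e2 : (V' • ((t : ℝ) : UnitAddCircle)) = (((V' : ℕ) * t : ℝ) : UnitAddCircle) := by
    rw [← AddCircle.coe_nsmul, nsmul_eq_mul]
  have e3 : (W • ((t : ℝ) : UnitAddCircle)) = (((W : ℕ) * t : ℝ) : UnitAddCircle) := by
    rw [← AddCircle.coe_nsmul, nsmul_eq_mul]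
  change ‖(a * W) • ((t : ℝ) : UnitAddCircle)‖ < r at h1
  change ‖V' • ((t : ℝ) : UnitAddCircle)‖ < r' at h2
  change ‖W • ((t : ℝ) : UnitAddCircle)‖ < r / a
  rw [e1, UnitAddCircle.norm_eq] at h1
  rw [e2, UnitAddCircle.norm_eq] at h2
  rw [e3]
  set b := round (((a * W : ℕ) : ℝ) * t) with hb
  set b' := round ((V' : ℝ) * t) with hb'
  have hVpos : (0 : ℝ) < V' := by exact_mod_cast hV'
  have hapos : (0 : ℝ) < a := by exact_mod_cast ha
  have hWpos : (0 : ℝ) < W := by exact_mod_cast hW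
  have haW : (0 : ℝ) < ((a * W : ℕ) : ℝ) := by positivity
  have key : |((V' : ℤ) * b - ((a * W : ℕ) : ℤ) * b' : ℤ)| < 1 := by
    have : |(((V' : ℤ) * b - ((a * W : ℕ) : ℤ) * b' : ℤ) : ℝ)| < 1 := by
      have e : (((V' : ℤ) * b - ((a * W : ℕ) : ℤ) * b' : ℤ) : ℝ)
          = (V' : ℝ) * (b - ((a * W : ℕ) : ℝ) * t) + ((a * W : ℕ) : ℝ) * (V' * t - b') := by
        push_cast; ring
      rw [e]
      calc |(V' : ℝ) * (b - ((a * W : ℕ) : ℝ) * t) + ((a * W : ℕ) : ℝ) * (V' * t - b')|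
          ≤ |(V' : ℝ) * (b - ((a * W : ℕ) : ℝ) * t)| + |((a * W : ℕ) : ℝ) * (V' * t - b')| :=
            abs_add_le _ _
        _ = (V' : ℝ) * |((a * W : ℕ) : ℝ) * t - b| + ((a * W : ℕ) : ℝ) * |V' * t - b'| := by
            rw [abs_mul, abs_mul, abs_of_pos hVpos, abs_of_pos haW, abs_sub_comm]
        _ < (V' : ℝ) * r + ((a * W : ℕ) : ℝ) * r' := by
            apply add_lt_add
            · exact mul_lt_mul_of_pos_left h1 hVpos
            · exact mul_lt_mul_of_pos_left h2 haW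
        _ ≤ 1 := by linarith
    exact_mod_cast this
  have h0 : (V' : ℤ) * b = ((a * W : ℕ) : ℤ) * b' := by
    have := Int.abs_lt_one_iff.mp key
    linarith
  have hdvd : (a : ℤ) ∣ b := by
    have : (a : ℤ) ∣ (V' : ℤ) * b := by
      rw [h0]; push_cast; exact ⟨W * b', by ring⟩
    exact IsCoprime.dvd_of_dvd_mul_left (Nat.isCoprime_iff_coprime.mpr hco) this
  obtain ⟨c, hc⟩ := hdvd
  have hfin : ‖(((W : ℕ) * t : ℝ) : UnitAddCircle)‖ ≤ |(W : ℝ) * t - c| := by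
    rw [UnitAddCircle.norm_eq]
    exact round_le _ _
  refine lt_of_le_of_lt hfin ?_
  rw [lt_div_iff₀ hapos]
  calc |(W : ℝ) * t - c| * a = |((W : ℝ) * t - c) * a| := by
        rw [abs_mul, abs_of_pos hapos]
    _ = |((a * W : ℕ) : ℝ) * t - b| := by
        congr 1; rw [hc]; push_cast; ring
    _ < r := h1

end Pool.Agent.H237.Gap
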