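import Mathlib

/-!
# The combinatorial inequality for weights on the subsets of a finite set
-/

namespace Pool.Agent.H237.Gap

open Finset

lemma one_sub_pow_le {n : ℕ} {y : ℝ} (h0 : 0 ≤ y) (h1 : (n : ℝ) * y ≤ 1) (hn : 1 ≤ n) :
    (1 - y) ^ n ≤ 1 - n * y / 2 := by
  have hn' : (1 : ℝ) ≤ n := by exact_mod_cast hn
  have hy1 : y ≤ 1 := by nlinarith
  have hb : 1 + (n : ℝ) * y ≤ (1 + y) ^ n := one_add_mul_le_pow (by linarith) n
  have hprod : (1 - y) ^ n * (1 + y) ^ n ≤ 1 := by
    rw [← mul_pow]
    apply pow_le_one₀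
    · nlinarith
    · nlinarith
  have hpos : 0 ≤ (1 - y) ^ n := pow_nonneg (by linarith) n
  have h2 : (1 - y) ^ n * (1 + n * y) ≤ 1 := le_trans (mul_le_mul_of_nonneg_left hb hpos) hprod
  have h3 : 0 ≤ (n : ℝ) * y := by positivity
  by_contra hcon
  push Not at hcon
  nlinarith

lemma choose_mul_choose {k m r : ℕ} (hr : 4 * m ≤ r) (hr' : 4 * m ≤ k - r) (hk : 9 * m ≤ k)
    (hrk : r ≤ k) :
    2 ^ m * k.choose m ≤ r.choose m * (k - r).choose m := by
  have key : 2 ^ m * m.descFactorial m * k.descFactorial m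
      ≤ r.descFactorial m * (k - r).descFactorial m := by
    simp only [Nat.descFactorial_eq_prod_range]
    rw [← Finset.prod_mul_distrib]
    have : (2 : ℕ) ^ m = ∏ i ∈ range m, 2 := by simp
    rw [this, ← Finset.prod_mul_distrib, ← Finset.prod_mul_distrib]
    apply Finset.prod_le_prod'
    intro i hi
    rw [Finset.mem_range] at hi
    obtain ⟨a, ha⟩ : ∃ a, m = i + a := ⟨m - i, by omega⟩
    obtain ⟨s, hs⟩ : ∃ s, r = 4 * m + s := ⟨r - 4 * m, by omega⟩
    obtain ⟨t, ht⟩ : ∃ t, k - r = 4 * m + t := ⟨k - r - 4 * m, by omega⟩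
    have hk2 : k = 8 * m + s + t := by omega
    have e1 : m - i = a := by omega
    have e2 : k - i = 8 * a + 7 * i + s + t := by omega
    have e3 : r - i = 4 * a + 3 * i + s := by omega
    have e4 : k - r - i = 4 * a + 3 * i + t := by omega
    rw [e1, e2, e3, e4]
    have hst : a + i ≤ s + t := by omega
    nlinarith [Nat.zero_le (a * i), Nat.zero_le (s * t), Nat.zero_le (i * s), Nat.zero_le (i * t),
      Nat.zero_le (a * s), Nat.zero_le (a * t), Nat.zero_le (i * i), Nat.zero_le (a * a)]
  have hfac : ∀ n : ℕ, n.descFactorial m = m.factorial * n.choose m :=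
    fun n => Nat.descFactorial_eq_factorial_mul_choose n m
  rw [hfac m, hfac k, hfac r, hfac (k - r), Nat.choose_self, mul_one] at key
  have hpos : 0 < m.factorial * m.factorial := by positivity
  refine Nat.le_of_mul_le_mul_left ?_ hpos
  calc m.factorial * m.factorial * (2 ^ m * k.choose m)
      = 2 ^ m * m.factorial * (m.factorial * k.choose m) := by ring
    _ ≤ m.factorial * r.choose m * (m.factorial * (k - r).choose m) := key
    _ = _ := by ring

/-- The pointwise inequality behind the packing bound. -/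
lemma pointwise {n m r : ℕ} (hn : 3 ≤ n) (hm : 1 ≤ m) (hr : r ≤ 4 * n * m) :
    (r : ℝ) / (4 * n * m : ℕ) * (1 - (r : ℝ) / (4 * n * m : ℕ)) ≤
      2 / n * (1 - (1 - (r : ℝ) / (4 * n * m : ℕ)) ^ n) + 1 / n * ((r : ℝ) / (4 * n * m : ℕ)) +
        1 / 4 * (1 / 2) ^ m * (((r.choose m * (4 * n * m - r).choose m : ℕ) : ℝ)
          / ((4 * n * m).choose m : ℕ)) := by
  set k := 4 * n * m with hk
  have hk0 : 0 < k := by positivity
  have hkR : (0 : ℝ) < k := by exact_mod_cast hk0
  set y : ℝ := (r : ℝ) / k with hy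
  have hy0 : 0 ≤ y := by positivity
  have hy1 : y ≤ 1 := by
    rw [hy, div_le_one hkR]; exact_mod_cast hr
  have hnR : (3 : ℝ) ≤ n := by exact_mod_cast hn
  have hnpos : (0 : ℝ) < n := by linarith
  have t1 : 0 ≤ 2 / (n : ℝ) * (1 - (1 - y) ^ n) := by
    apply mul_nonneg (by positivity)
    have : (1 - y) ^ n ≤ 1 := pow_le_one₀ (by linarith) (by linarith)
    linarith
  have t2 : 0 ≤ 1 / (n : ℝ) * y := by positivity
  have t3 : 0 ≤ 1 / 4 * (1 / 2 : ℝ) ^ m * (((r.choose m * (k - r).choose m : ℕ) : ℝ)
          / (k.choose m : ℕ)) := by positivity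
  rcases le_or_gt ((n : ℝ) * y) 1 with h | h
  · -- small `y`
    have h1 := one_sub_pow_le hy0 h (by omega)
    have : y ≤ 2 / n * (1 - (1 - y) ^ n) := by
      have : n * y / 2 ≤ 1 - (1 - y) ^ n := by linarith
      calc y = 2 / n * (n * y / 2) := by field_simp
        _ ≤ _ := mul_le_mul_of_nonneg_left this (by positivity)
    nlinarith
  rcases le_or_gt ((n : ℝ) * (1 - y)) 1 with h' | h'
  · -- `y` close to one
    have : y * (1 - y) ≤ 1 / n * y := by
      have : 1 - y ≤ 1 / n := by
        rw [le_div_iff₀ hnpos]; linarith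
      nlinarith
    linarith
  · -- the middle range
    have e1 : 4 * m ≤ r := by
      have : (4 * m : ℝ) < r := by
        have h5 : (n : ℝ) * y = r / (4 * m) := by
          rw [hy, hk]; push_cast
          have : (m : ℝ) ≠ 0 := by positivity
          field_simp
        rw [h5, lt_div_iff₀ (by positivity)] at h
        linarith
      have : 4 * m < r := by exact_mod_cast this
      omega
    have e2 : 4 * m ≤ k - r := by
      have h6 : ((k - r : ℕ) : ℝ) = k - r := by
        rw [Nat.cast_sub hr]
      have : (4 * m : ℝ) < ((k - r : ℕ) : ℝ) := by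
        have h5 : (n : ℝ) * (1 - y) = (k - r) / (4 * m) := by
          rw [hy, hk]; push_cast
          have : (m : ℝ) ≠ 0 := by positivity
          field_simp
        rw [h5, lt_div_iff₀ (by positivity)] at h'
        rw [h6]; linarith
      have : 4 * m < k - r := by exact_mod_cast this
      omega
    have e3 : 9 * m ≤ k := by
      rw [hk]; nlinarith
    have hc := choose_mul_choose e1 e2 e3 hr
    have hcpos : (0 : ℝ) < (k.choose m : ℕ) := by
      exact_mod_cast Nat.choose_pos (by omega)
    have hcR : (2 : ℝ) ^ m ≤ ((r.choose m * (k - r).choose m : ℕ) : ℝ) / (k.choose m : ℕ) := by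
      rw [le_div_iff₀ hcpos]
      exact_mod_cast hc
    have h7 : 1 / 4 ≤ 1 / 4 * (1 / 2 : ℝ) ^ m * (((r.choose m * (k - r).choose m : ℕ) : ℝ)
          / (k.choose m : ℕ)) := by
      calc (1 : ℝ) / 4 = 1 / 4 * (1 / 2 : ℝ) ^ m * 2 ^ m := by
            rw [mul_assoc, ← mul_pow]; norm_num
        _ ≤ _ := mul_le_mul_of_nonneg_left hcR (by positivity)
    nlinarith [sq_nonneg (y - 1 / 2)]

variable {ι : Type*} [Fintype ι] [DecidableEq ι]

/-- The total weight of the sets disjoint from `J`. -/
noncomputable def F (w : Finset ι → ℝ) (J : Finset ι) : ℝ :=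
  ∑ S : Finset ι, if Disjoint S J then w S else 0

lemma F_empty (w : Finset ι → ℝ) : F w ∅ = ∑ S : Finset ι, w S := by
  simp [F]

lemma F_anti (w : Finset ι → ℝ) (hw : ∀ S, 0 ≤ w S) {J J' : Finset ι} (h : J ⊆ J') :
    F w J' ≤ F w J := by
  unfold F
  apply Finset.sum_le_sum
  intro S _
  by_cases h1 : Disjoint S J'
  · have h2 : Disjoint S J := Finset.disjoint_of_subset_right h h1
    simp [h1, h2]
  · simp only [h1, if_false]
    split_ifs
    · exact hw S
    · exact le_rfl

lemma sum_card (w : Finset ι → ℝ) :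
    ∑ S : Finset ι, w S * (S.card : ℝ) = ∑ j : ι, (F w ∅ - F w {j}) := by
  have : ∀ j : ι, F w ∅ - F w {j} = ∑ S : Finset ι, if j ∈ S then w S else 0 := by
    intro j
    rw [F_empty, F, ← Finset.sum_sub_distrib]
    apply Finset.sum_congr rfl
    intro S _
    by_cases h : j ∈ S <;> simp [h]
  simp_rw [this]
  rw [Finset.sum_comm]
  apply Finset.sum_congr rfl
  intro S _
  rw [← Finset.sum_filter]
  simp [mul_comm]

lemma sum_card_mul (w : Finset ι → ℝ) :
    ∑ S : Finset ι, w S * ((S.card : ℝ) * (Fintype.card ι - S.card)) =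
      ∑ j : ι, ∑ j' : ι, (F w {j} - F w {j, j'}) := by
  have : ∀ j j' : ι, F w {j} - F w {j, j'} =
      ∑ S : Finset ι, if j ∉ S ∧ j' ∈ S then w S else 0 := by
    intro j j'
    rw [F, F, ← Finset.sum_sub_distrib]
    apply Finset.sum_congr rfl
    intro S _
    by_cases h : j ∈ S <;> by_cases h' : j' ∈ S <;> simp [h, h']
  simp_rw [this]
  have h2 : ∀ j : ι, ∑ j' : ι, ∑ S : Finset ι, (if j ∉ S ∧ j' ∈ S then w S else 0) =
      ∑ S : Finset ι, if j ∉ S then (S.card : ℝ) * w S else 0 := by
    intro j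
    rw [Finset.sum_comm]
    apply Finset.sum_congr rfl
    intro S _
    by_cases h : j ∈ S
    · simp [h]
    · simp only [h, not_false_eq_true, true_and, if_true]
      rw [← Finset.sum_filter]
      simp
  simp_rw [h2]
  rw [Finset.sum_comm]
  apply Finset.sum_congr rfl
  intro S _
  rw [← Finset.sum_filter]
  have : (univ.filter fun j => j ∉ S).card = Fintype.card ι - S.card := by
    have : (univ.filter fun j => j ∉ S) = Sᶜ := by
      ext; simp
    rw [this, Finset.card_compl]
  rw [Finset.sum_const, this, nsmul_eq_mul, Nat.cast_sub (Finset.card_le_univ S)]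
  ring

lemma sum_pow (w : Finset ι → ℝ) (n : ℕ) (hι : 0 < Fintype.card ι) :
    ∑ S : Finset ι, w S * (1 - (1 - (S.card : ℝ) / Fintype.card ι) ^ n) =
      (1 / (Fintype.card ι : ℝ) ^ n) * ∑ t : Fin n → ι, (F w ∅ - F w (univ.image t)) := by
  have hk : (0 : ℝ) < Fintype.card ι := by exact_mod_cast hι
  have : ∀ t : Fin n → ι, F w ∅ - F w (univ.image t) =
      ∑ S : Finset ι, (w S - if ∀ i, t i ∉ S then w S else 0) := by
    intro t
    rw [F_empty, F, ← Finset.sum_sub_distrib]
    apply Finset.sum_congr rfl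
    intro S _
    have : Disjoint S (univ.image t) ↔ ∀ i, t i ∉ S := by
      rw [Finset.disjoint_right]
      simp
    simp only [this]
  simp_rw [this]
  rw [Finset.sum_comm, Finset.mul_sum]
  apply Finset.sum_congr rfl
  intro S _
  rw [Finset.sum_sub_distrib, ← Finset.sum_filter, Finset.sum_const, Finset.sum_const]
  have hcard : (univ.filter fun t : Fin n → ι => ∀ i, t i ∉ S).card
      = (Fintype.card ι - S.card) ^ n := by
    have : (univ.filter fun t : Fin n → ι => ∀ i, t i ∉ S)
        = Fintype.piFinset fun _ : Fin n => Sᶜ := by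
      ext t; simp
    rw [this, Fintype.card_piFinset]
    simp [Finset.card_compl]
  rw [hcard]
  simp only [Finset.card_univ, Fintype.card_fun, Fintype.card_fin, nsmul_eq_mul]
  push_cast [Nat.cast_sub (Finset.card_le_univ S)]
  have : (1 - (S.card : ℝ) / Fintype.card ι) = (Fintype.card ι - S.card) / Fintype.card ι := by
    field_simp
  rw [this, div_pow]
  field_simp

lemma sum_choose (w : Finset ι → ℝ) (m : ℕ) :
    ∑ S : Finset ι, w S * ((S.card.choose m * (Fintype.card ι - S.card).choose m : ℕ) : ℝ) =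
      ∑ J ∈ Finset.powersetCard m (univ : Finset ι),
        ∑ S : Finset ι, if Disjoint S J then w S * (S.card.choose m : ℕ) else 0 := by
  rw [Finset.sum_comm]
  apply Finset.sum_congr rfl
  intro S _
  rw [← Finset.sum_filter]
  have hcard : ((Finset.powersetCard m (univ : Finset ι)).filter fun J => Disjoint S J).card
      = (Fintype.card ι - S.card).choose m := by
    have : ((Finset.powersetCard m (univ : Finset ι)).filter fun J => Disjoint S J)
        = Finset.powersetCard m Sᶜ := by
      ext J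
      simp only [mem_filter, mem_powersetCard, subset_univ, true_and]
      rw [and_comm]
      apply and_congr_left
      intro _
      rw [disjoint_comm, Finset.subset_compl_iff_disjoint_right]
    rw [this, Finset.card_powersetCard, Finset.card_compl]
  rw [Finset.sum_const, hcard, nsmul_eq_mul]
  push_cast
  ring

/-- **The combinatorial inequality.** -/
theorem comb (w : Finset ι → ℝ) (hw : ∀ S, 0 ≤ w S) {n m : ℕ} (hn : 3 ≤ n) (hm : 1 ≤ m)
    (hcard : Fintype.card ι = 4 * n * m) {d D : ℝ}
    (hpack : ∀ J : Finset ι, J.card = m →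
      ∑ S : Finset ι, (if Disjoint S J then w S * (S.card.choose m : ℕ) else 0) ≤ 1)
    (hD : ∀ J : Finset ι, J.card ≤ n → F w ∅ - F w J ≤ D)
    (hd : ∀ j j' : ι, j ≠ j' → d ≤ F w {j} - F w {j, j'}) :
    (1 - 1 / (4 * n * m : ℕ)) * d ≤ 3 / n * D + 1 / 4 * (1 / 2) ^ m := by
  set k := 4 * n * m with hk
  have hk0 : 0 < k := by positivity
  have hkR : (0 : ℝ) < k := by exact_mod_cast hk0
  have hnR : (3 : ℝ) ≤ n := by exact_mod_cast hn
  have hnpos : (0 : ℝ) < n := by linarith
  -- lower bound
  have h1 : (k : ℝ) * (k - 1) * d ≤ ∑ S : Finset ι, w S * ((S.card : ℝ) * (k - S.card)) := by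
    have := sum_card_mul w
    rw [hcard] at this
    rw [this]
    have h2 : ∀ j : ι, ((k : ℝ) - 1) * d ≤ ∑ j' : ι, (F w {j} - F w {j, j'}) := by
      intro j
      rw [← Finset.add_sum_erase univ _ (Finset.mem_univ j)]
      have e0 : F w {j} - F w {j, j} = 0 := by simp
      rw [e0, zero_add]
      have : ∑ j' ∈ univ.erase j, d ≤ ∑ j' ∈ univ.erase j, (F w {j} - F w {j, j'}) := by
        apply Finset.sum_le_sum
        intro j' hj'
        exact hd j j' (Finset.ne_of_mem_erase hj').symm
      rw [Finset.sum_const, Finset.card_erase_of_mem (Finset.mem_univ j), Finset.card_univ,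
        hcard, nsmul_eq_mul, Nat.cast_sub (by omega)] at this
      simpa using this
    calc (k : ℝ) * (k - 1) * d = ∑ j : ι, ((k : ℝ) - 1) * d := by
          rw [Finset.sum_const, Finset.card_univ, hcard, nsmul_eq_mul]; ring
      _ ≤ _ := Finset.sum_le_sum fun j _ => h2 j
  -- the three upper bounds
  have hS : ∀ S : Finset ι, S.card ≤ k := fun S => hcard ▸ Finset.card_le_univ S
  have u1 : ∑ S : Finset ι, w S * (1 - (1 - (S.card : ℝ) / k) ^ n) ≤ D := by
    have := sum_pow w n (by rw [hcard]; exact hk0)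
    rw [hcard] at this
    rw [this]
    have h3 : ∑ t : Fin n → ι, (F w ∅ - F w (univ.image t)) ≤ ∑ t : Fin n → ι, D := by
      apply Finset.sum_le_sum
      intro t _
      apply hD
      calc (univ.image t).card ≤ (univ : Finset (Fin n)).card := Finset.card_image_le
        _ = n := by simp
    rw [Finset.sum_const, Finset.card_univ, Fintype.card_fun, Fintype.card_fin, hcard,
      nsmul_eq_mul] at h3
    push_cast at h3
    calc 1 / (k : ℝ) ^ n * ∑ t : Fin n → ι, (F w ∅ - F w (univ.image t))
        ≤ 1 / (k : ℝ) ^ n * (k ^ n * D) := by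
          apply mul_le_mul_of_nonneg_left _ (by positivity)
          exact h3
      _ = D := by field_simp
  have u2 : ∑ S : Finset ι, w S * ((S.card : ℝ) / k) ≤ D := by
    have h4 : ∑ j : ι, (F w ∅ - F w {j}) ≤ ∑ j : ι, D := by
      apply Finset.sum_le_sum
      intro j _
      apply hD
      simp; omega
    rw [Finset.sum_const, Finset.card_univ, hcard, nsmul_eq_mul, ← sum_card] at h4
    have : ∑ S : Finset ι, w S * ((S.card : ℝ) / k) =
        1 / k * ∑ S : Finset ι, w S * (S.card : ℝ) := by
      rw [Finset.mul_sum]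
      apply Finset.sum_congr rfl
      intro S _
      ring
    rw [this]
    calc 1 / (k : ℝ) * ∑ S : Finset ι, w S * (S.card : ℝ) ≤ 1 / k * (k * D) := by
          apply mul_le_mul_of_nonneg_left _ (by positivity)
          exact h4
      _ = D := by field_simp
  have hcpos : (0 : ℝ) < (k.choose m : ℕ) := by
    exact_mod_cast Nat.choose_pos (by rw [hk]; nlinarith)
  have u3 : ∑ S : Finset ι, w S * (((S.card.choose m * (k - S.card).choose m : ℕ) : ℝ)
      / (k.choose m : ℕ)) ≤ 1 := by
    have := sum_choose w m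
    rw [hcard] at this
    have h5 : ∑ J ∈ Finset.powersetCard m (univ : Finset ι),
        ∑ S : Finset ι, (if Disjoint S J then w S * (S.card.choose m : ℕ) else 0)
        ≤ ∑ J ∈ Finset.powersetCard m (univ : Finset ι), (1 : ℝ) := by
      apply Finset.sum_le_sum
      intro J hJ
      exact hpack J (Finset.mem_powersetCard.mp hJ).2
    rw [← this, Finset.sum_const, Finset.card_powersetCard, Finset.card_univ, hcard,
      nsmul_eq_mul, mul_one] at h5
    have h6 : ∑ S : Finset ι, w S * (((S.card.choose m * (k - S.card).choose m : ℕ) : ℝ)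
      / (k.choose m : ℕ)) = (∑ S : Finset ι, w S * ((S.card.choose m * (k - S.card).choose m : ℕ) : ℝ))
        / (k.choose m : ℕ) := by
      rw [Finset.sum_div]
      apply Finset.sum_congr rfl
      intro S _
      ring
    rw [h6, div_le_one hcpos]
    exact h5
  -- combination
  have h8 : ∑ S : Finset ι, w S * ((S.card : ℝ) / k * (1 - (S.card : ℝ) / k)) ≤
      2 / n * D + 1 / n * D + 1 / 4 * (1 / 2) ^ m * 1 := by
    calc ∑ S : Finset ι, w S * ((S.card : ℝ) / k * (1 - (S.card : ℝ) / k))
        ≤ ∑ S : Finset ι, w S * (2 / n * (1 - (1 - (S.card : ℝ) / k) ^ n) +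
            1 / n * ((S.card : ℝ) / k) +
            1 / 4 * (1 / 2) ^ m * (((S.card.choose m * (k - S.card).choose m : ℕ) : ℝ)
              / (k.choose m : ℕ))) := by
          apply Finset.sum_le_sum
          intro S _
          exact mul_le_mul_of_nonneg_left (pointwise hn hm (hS S)) (hw S)
      _ = 2 / n * (∑ S : Finset ι, w S * (1 - (1 - (S.card : ℝ) / k) ^ n)) +
            1 / n * (∑ S : Finset ι, w S * ((S.card : ℝ) / k)) +
            1 / 4 * (1 / 2) ^ m * (∑ S : Finset ι, w S *
              (((S.card.choose m * (k - S.card).choose m : ℕ) : ℝ) / (k.choose m : ℕ))) := by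
          rw [Finset.mul_sum, Finset.mul_sum, Finset.mul_sum, ← Finset.sum_add_distrib,
            ← Finset.sum_add_distrib]
          apply Finset.sum_congr rfl
          intro S _
          ring
      _ ≤ _ := by
          gcongr
  have h9 : ∑ S : Finset ι, w S * ((S.card : ℝ) * (k - S.card)) =
      k ^ 2 * ∑ S : Finset ι, w S * ((S.card : ℝ) / k * (1 - (S.card : ℝ) / k)) := by
    rw [Finset.mul_sum]
    apply Finset.sum_congr rfl
    intro S _
    field_simp
  rw [h9] at h1
  have h10 : (k : ℝ) ^ 2 * ((1 - 1 / k) * d) ≤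
      (k : ℝ) ^ 2 * (3 / n * D + 1 / 4 * (1 / 2) ^ m) := by
    calc (k : ℝ) ^ 2 * ((1 - 1 / k) * d) = k * (k - 1) * d := by field_simp
      _ ≤ _ := h1
      _ ≤ (k : ℝ) ^ 2 * (2 / n * D + 1 / n * D + 1 / 4 * (1 / 2) ^ m * 1) :=
          mul_le_mul_of_nonneg_left h8 (by positivity)
      _ = _ := by ring
  exact le_of_mul_le_mul_left h10 (by positivity)

end Pool.Agent.H237.Gap
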