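import Mathlib
import Pool.Agent.H237.Gap.Basic
import Pool.Agent.H237.Gap.Comb

/-!
# The packing bound for invariant measures
-/

namespace Pool.Agent.H237.Gap

open MeasureTheory Set

/-- `μ` is invariant under `x ↦ n x`. -/
def Inv (μ : Measure UnitAddCircle) (n : ℕ) : Prop :=
  MeasurePreserving (fun x : UnitAddCircle => n • x) μ μ

lemma Inv.one (μ : Measure UnitAddCircle) : Inv μ 1 := by
  unfold Inv
  simp only [one_smul]
  exact MeasurePreserving.id μ

lemma Inv.mul {μ : Measure UnitAddCircle} {a b : ℕ} (ha : Inv μ a) (hb : Inv μ b) :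
    Inv μ (a * b) := by
  unfold Inv at *
  have := ha.comp hb
  convert this using 1
  ext x
  simp [mul_smul]

lemma Inv.pow {μ : Measure UnitAddCircle} {a : ℕ} (ha : Inv μ a) (n : ℕ) : Inv μ (a ^ n) := by
  induction n with
  | zero => simpa using Inv.one μ
  | succ n ih => rw [pow_succ]; exact ih.mul ha

lemma Inv.prod {μ : Measure UnitAddCircle} {ι : Type*} (s : Finset ι) (u : ι → ℕ)
    (h : ∀ i ∈ s, Inv μ (u i)) : Inv μ (∏ i ∈ s, u i) := by
  classical
  induction s using Finset.induction_on with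
  | empty => simpa using Inv.one μ
  | insert a s ha ih =>
    rw [Finset.prod_insert ha]
    exact (h a (Finset.mem_insert_self a s)).mul
      (ih fun i hi => h i (Finset.mem_insert_of_mem hi))

/-- The mass of the ball of radius `r` about `0`. -/
noncomputable def g (μ : Measure UnitAddCircle) (r : ℝ) : ℝ := μ.real {x | ‖x‖ < r}

lemma measurableSet_lt (n : ℕ) (r : ℝ) : MeasurableSet {x : UnitAddCircle | ‖n • x‖ < r} := by
  apply IsOpen.measurableSet
  exact isOpen_lt (by fun_prop) continuous_const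

lemma g_mono (μ : Measure UnitAddCircle) [IsFiniteMeasure μ] {r r' : ℝ} (h : r ≤ r') :
    g μ r ≤ g μ r' := by
  apply measureReal_mono
  · intro x hx
    exact lt_of_lt_of_le hx h
  · exact measure_ne_top _ _

lemma g_inv {μ : Measure UnitAddCircle} {n : ℕ} (h : Inv μ n) (r : ℝ) :
    μ.real {x | ‖n • x‖ < r} = g μ r := by
  unfold g
  have : {x : UnitAddCircle | ‖n • x‖ < r} = (fun x : UnitAddCircle => n • x) ⁻¹' {x | ‖x‖ < r} :=
    rfl
  rw [this]
  have hm : MeasurableSet {x : UnitAddCircle | ‖x‖ < r} := by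
    have := measurableSet_lt 1 r
    simpa using this
  rw [Measure.real, Measure.real, h.measure_preimage hm.nullMeasurableSet]

variable {ι : Type*} [Fintype ι] [DecidableEq ι]

/-- The points `x` close to a fraction with denominator `∏ i ∉ J, u i`. -/
def A (u : ι → ℕ) (ρ : ℝ) (J : Finset ι) : Set UnitAddCircle :=
  {x | ‖(∏ i ∈ Jᶜ, u i) • x‖ < ρ / (∏ i ∈ J, u i : ℕ)}

lemma prod_pos' {u : ι → ℕ} (hu : ∀ i, 0 < u i) (J : Finset ι) : 0 < ∏ i ∈ J, u i :=
  Finset.prod_pos fun i _ => hu i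

lemma A_mono {u : ι → ℕ} (hu : ∀ i, 0 < u i) {ρ : ℝ} {J J' : Finset ι} (h : J ⊆ J') :
    A u ρ J' ⊆ A u ρ J := by
  intro x hx
  unfold A at *
  rw [mem_ofPred_eq] at *
  have e1 : (∏ i ∈ Jᶜ, u i) = (∏ i ∈ J' \ J, u i) * ∏ i ∈ J'ᶜ, u i := by
    rw [← Finset.prod_union]
    · congr 1
      ext i
      simp only [Finset.mem_compl, Finset.mem_union, Finset.mem_sdiff]
      have := @h i
      tauto
    · rw [Finset.disjoint_left]
      intro i hi hi'
      simp only [Finset.mem_compl, Finset.mem_sdiff] at hi hi'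
      exact hi' hi.1
  have e2 : (∏ i ∈ J', u i) = (∏ i ∈ J' \ J, u i) * ∏ i ∈ J, u i := by
    rw [Finset.prod_sdiff h]
  set P := ∏ i ∈ J' \ J, u i with hP
  have hPpos : (0 : ℝ) < P := by exact_mod_cast prod_pos' hu _
  have hJpos : (0 : ℝ) < (∏ i ∈ J, u i : ℕ) := by exact_mod_cast prod_pos' hu _
  rw [e1, mul_smul]
  calc ‖P • (∏ i ∈ J'ᶜ, u i) • x‖ ≤ P * ‖(∏ i ∈ J'ᶜ, u i) • x‖ := norm_nsmul_le
    _ < P * (ρ / (∏ i ∈ J', u i : ℕ)) := mul_lt_mul_of_pos_left hx hPpos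
    _ = ρ / (∏ i ∈ J, u i : ℕ) := by
        rw [e2]
        push_cast
        have hJ0 : (∏ i ∈ J, (u i : ℝ)) ≠ 0 := by
          have := hJpos.ne'
          push_cast at this
          exact this
        field_simp

lemma coprime_prod {u : ι → ℕ} (hco : ∀ i j, i ≠ j → Nat.Coprime (u i) (u j)) {j : ι}
    {J : Finset ι} (hj : j ∉ J) : Nat.Coprime (u j) (∏ i ∈ J, u i) :=
  Nat.Coprime.prod_right fun i hi => hco j i (fun h => hj (h ▸ hi))

lemma A_insert {u : ι → ℕ} (hu : ∀ i, 0 < u i)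
    (hco : ∀ i j, i ≠ j → Nat.Coprime (u i) (u j)) {ρ : ℝ} (hρ' : ρ ≤ 1 / 2)
    {j : ι} {J : Finset ι} (hj : j ∉ J) {x : UnitAddCircle} (h1 : x ∈ A u ρ J)
    (h2 : x ∈ A u ρ {j}) : x ∈ A u ρ (insert j J) := by
  unfold A at *
  rw [mem_ofPred_eq] at *
  set K := (insert j J)ᶜ with hK
  have hjK : j ∉ K := by simp [hK]
  have e1 : Jᶜ = insert j K := by
    ext i
    simp only [Finset.mem_compl, hK, Finset.mem_insert]
    by_cases h : i = j
    · subst h; simp [hj]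
    · simp [h]
  have e2 : ({j} : Finset ι)ᶜ = J ∪ K := by
    ext i
    simp only [Finset.mem_compl, hK, Finset.mem_insert, Finset.mem_singleton, Finset.mem_union]
    by_cases h : i = j
    · subst h; simp [hj]
    · simp [h]; tauto
  have hdis : Disjoint J K := by
    rw [Finset.disjoint_left]
    intro i hi hi'
    simp only [Finset.mem_compl, hK, Finset.mem_insert] at hi'
    tauto
  rw [e1, Finset.prod_insert hjK] at h1
  rw [e2, Finset.prod_union hdis, Finset.prod_singleton] at h2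
  rw [Finset.prod_insert hj]
  set z := (∏ i ∈ K, u i) • x with hz
  have hJ : 0 < ∏ i ∈ J, u i := prod_pos' hu J
  have h1' : ‖(u j * 1) • z‖ < ρ / (∏ i ∈ J, u i : ℕ) := by
    rw [mul_one, hz, ← mul_smul]; exact h1
  have h2' : ‖(∏ i ∈ J, u i) • z‖ < ρ / (u j : ℕ) := by
    rw [hz, ← mul_smul]; exact h2
  have hJR : (0 : ℝ) < (∏ i ∈ J, u i : ℕ) := by exact_mod_cast hJ
  have hjR : (0 : ℝ) < (u j : ℕ) := by exact_mod_cast hu j
  have := near_div (hu j) Nat.one_pos (coprime_prod hco hj)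
    (r := ρ / (∏ i ∈ J, u i : ℕ)) (r' := ρ / (u j : ℕ)) (by
      rw [mul_one, div_mul_cancel₀ _ hJR.ne', div_mul_cancel₀ _ hjR.ne']; linarith) hJ h1' h2'
  rw [one_smul] at this
  refine lt_of_lt_of_eq this ?_
  rw [Nat.cast_mul, div_div, mul_comm]

lemma A_iff {u : ι → ℕ} (hu : ∀ i, 0 < u i)
    (hco : ∀ i j, i ≠ j → Nat.Coprime (u i) (u j)) {ρ : ℝ} (hρ' : ρ ≤ 1 / 2)
    (J : Finset ι) (x : UnitAddCircle) :
    x ∈ A u ρ J ↔ x ∈ A u ρ ∅ ∧ ∀ j ∈ J, x ∈ A u ρ {j} := by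
  constructor
  · intro h
    refine ⟨A_mono hu (Finset.empty_subset J) h, fun j hj => A_mono hu ?_ h⟩
    simpa using hj
  · rintro ⟨h0, h⟩
    induction J using Finset.induction_on with
    | empty => exact h0
    | insert a s ha ih =>
      apply A_insert hu hco hρ' ha
      · exact ih fun j hj => h j (Finset.mem_insert_of_mem hj)
      · exact h a (Finset.mem_insert_self a s)

open Classical in
/-- The set of the indices `j` such that `u j` is not cancelled in the fraction near `x`. -/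
noncomputable def R (u : ι → ℕ) (ρ : ℝ) (x : UnitAddCircle) : Finset ι :=
  Finset.univ.filter fun j => x ∉ A u ρ {j}

lemma mem_R {u : ι → ℕ} {ρ : ℝ} {x : UnitAddCircle} {j : ι} :
    j ∈ R u ρ x ↔ x ∉ A u ρ {j} := by
  simp [R]

lemma A_iff_disjoint {u : ι → ℕ} (hu : ∀ i, 0 < u i)
    (hco : ∀ i j, i ≠ j → Nat.Coprime (u i) (u j)) {ρ : ℝ} (hρ' : ρ ≤ 1 / 2)
    (J : Finset ι) (x : UnitAddCircle) :
    x ∈ A u ρ J ↔ x ∈ A u ρ ∅ ∧ Disjoint (R u ρ x) J := by
  rw [A_iff hu hco hρ' J x, Finset.disjoint_right]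
  apply and_congr_right
  intro _
  apply forall₂_congr
  intro j _
  rw [mem_R, not_not]

lemma measurableSet_A (u : ι → ℕ) (ρ : ℝ) (J : Finset ι) : MeasurableSet (A u ρ J) :=
  measurableSet_lt _ _

lemma measurableSet_R (u : ι → ℕ) (ρ : ℝ) (S : Finset ι) :
    MeasurableSet {x | R u ρ x = S} := by
  have : {x | R u ρ x = S} = ⋂ j : ι, {x | x ∉ A u ρ {j} ↔ j ∈ S} := by
    ext x
    simp only [mem_ofPred_eq, mem_iInter, Finset.ext_iff, mem_R]
  rw [this]
  apply MeasurableSet.iInter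
  intro j
  by_cases h : j ∈ S
  · simp only [h, iff_true]
    exact (measurableSet_A u ρ {j}).compl
  · simp only [h, iff_false, not_not]
    exact measurableSet_A u ρ {j}

/-- The mass of the points with a given set `R`. -/
noncomputable def w (μ : Measure UnitAddCircle) (u : ι → ℕ) (ρ : ℝ) (S : Finset ι) : ℝ :=
  μ.real {x | x ∈ A u ρ ∅ ∧ R u ρ x = S}

lemma w_nonneg (μ : Measure UnitAddCircle) (u : ι → ℕ) (ρ : ℝ) (S : Finset ι) :
    0 ≤ w μ u ρ S := measureReal_nonneg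

lemma sum_w (μ : Measure UnitAddCircle) [IsFiniteMeasure μ] (u : ι → ℕ) (ρ : ℝ)
    (p : Finset ι → Prop) [DecidablePred p] :
    ∑ S : Finset ι, (if p S then w μ u ρ S else 0) =
      μ.real {x | x ∈ A u ρ ∅ ∧ p (R u ρ x)} := by
  rw [← Finset.sum_filter]
  have : {x | x ∈ A u ρ ∅ ∧ p (R u ρ x)} =
      ⋃ S ∈ Finset.univ.filter p, {x | x ∈ A u ρ ∅ ∧ R u ρ x = S} := by
    ext x
    simp only [mem_ofPred_eq, Finset.mem_filter, Finset.mem_univ, true_and, mem_iUnion, exists_prop]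
    constructor
    · rintro ⟨h1, h2⟩
      exact ⟨R u ρ x, h2, h1, rfl⟩
    · rintro ⟨S, h2, h1, rfl⟩
      exact ⟨h1, h2⟩
  rw [this, measureReal_biUnion_finset]
  · rfl
  · intro S _ S' _ hne
    rw [Function.onFun, Set.disjoint_left]
    rintro x ⟨_, h1⟩ ⟨_, h2⟩
    exact hne (h1.symm.trans h2)
  · intro S _
    exact (measurableSet_A u ρ ∅).inter (measurableSet_R u ρ S)

lemma F_w (μ : Measure UnitAddCircle) [IsFiniteMeasure μ] {u : ι → ℕ} (hu : ∀ i, 0 < u i)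
    (hco : ∀ i j, i ≠ j → Nat.Coprime (u i) (u j)) (hinv : ∀ i, Inv μ (u i)) {ρ : ℝ}
    (hρ' : ρ ≤ 1 / 2) (J : Finset ι) :
    F (w μ u ρ) J = g μ (ρ / (∏ i ∈ J, u i : ℕ)) := by
  unfold F
  rw [sum_w μ u ρ (fun S => Disjoint S J)]
  have : {x | x ∈ A u ρ ∅ ∧ Disjoint (R u ρ x) J} = A u ρ J := by
    ext x
    rw [A_iff_disjoint hu hco hρ' J x]
    rfl
  rw [this]
  exact g_inv (Inv.prod _ _ fun i _ => hinv i) _

/-- The points close to a fraction with denominator `∏ i ∈ I, u i` in which no `u i` cancels. -/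
def SI (u : ι → ℕ) (ρ' : ℝ) (I : Finset ι) : Set UnitAddCircle :=
  {y | ‖(∏ i ∈ I, u i) • y‖ < ρ' ∧ ∀ i ∈ I, ¬ ‖(∏ l ∈ I.erase i, u l) • y‖ < ρ' / (u i : ℕ)}

lemma measurableSet_SI (u : ι → ℕ) (ρ' : ℝ) (I : Finset ι) : MeasurableSet (SI u ρ' I) := by
  have : SI u ρ' I = {y | ‖(∏ i ∈ I, u i) • y‖ < ρ'} ∩
      ⋂ i ∈ I, {y | ‖(∏ l ∈ I.erase i, u l) • y‖ < ρ' / (u i : ℕ)}ᶜ := by
    ext y
    simp [SI]
  rw [this]
  apply (measurableSet_lt _ _).inter
  apply Finset.measurableSet_biInter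
  intro i _
  exact (measurableSet_lt _ _).compl

lemma SI_disjoint {u : ι → ℕ} (hu : ∀ i, 0 < u i)
    (hco : ∀ i j, i ≠ j → Nat.Coprime (u i) (u j)) {ρ' : ℝ} {I I' : Finset ι}
    (hne : ¬ I ⊆ I')
    (hle : ((∏ i ∈ I, u i : ℕ) + (∏ i ∈ I', u i : ℕ)) * ρ' ≤ 1) :
    Disjoint (SI u ρ' I) (SI u ρ' I') := by
  rw [Set.disjoint_left]
  rintro y ⟨h1, h2⟩ ⟨h3, -⟩
  obtain ⟨i, hi, hi'⟩ := Finset.not_subset.mp hne
  apply h2 i hi
  have e : (∏ l ∈ I, u l) = u i * ∏ l ∈ I.erase i, u l := (Finset.mul_prod_erase I u hi).symm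
  have h1' := h1
  rw [e] at h1'
  apply near_div (hu i) (prod_pos' hu _) (coprime_prod hco hi') (r := ρ') (r' := ρ') _
    (prod_pos' hu I') h1' h3
  rw [← e]
  linarith

lemma SI_preimage {u : ι → ℕ} (hu : ∀ i, 0 < u i)
    (hco : ∀ i j, i ≠ j → Nat.Coprime (u i) (u j)) {ρ : ℝ} (hρ' : ρ ≤ 1 / 2)
    {I J : Finset ι} (hIJ : Disjoint I J) :
    (fun x : UnitAddCircle => (∏ i ∈ (I ∪ J)ᶜ, u i) • x) ⁻¹' (SI u (ρ / (∏ i ∈ J, u i : ℕ)) I) =
      {x | x ∈ A u ρ ∅ ∧ (Disjoint (R u ρ x) J ∧ I ⊆ R u ρ x)} := by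
  have e1 : Jᶜ = I ∪ (I ∪ J)ᶜ := by
    ext i
    have : i ∈ I → i ∉ J := fun h => Finset.disjoint_left.mp hIJ h
    simp only [Finset.mem_compl, Finset.mem_union]
    tauto
  have d1 : Disjoint I (I ∪ J)ᶜ := by
    rw [Finset.disjoint_left]
    intro i hi
    simp [hi]
  have hJ : (∏ i ∈ Jᶜ, u i) = (∏ i ∈ I, u i) * ∏ i ∈ (I ∪ J)ᶜ, u i := by
    conv_lhs => rw [e1]
    rw [Finset.prod_union d1]
  have hi : ∀ i ∈ I, (∏ l ∈ (insert i J)ᶜ, u l) =
      (∏ l ∈ I.erase i, u l) * ∏ l ∈ (I ∪ J)ᶜ, u l := by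
    intro i hi
    rw [← Finset.prod_union]
    · congr 1
      ext l
      have : l ∈ I → l ∉ J := fun h => Finset.disjoint_left.mp hIJ h
      simp only [Finset.mem_compl, Finset.mem_union, Finset.mem_insert, Finset.mem_erase]
      by_cases hl : l = i
      · subst hl; simp [hi]
      · tauto
    · exact Finset.disjoint_of_subset_left (Finset.erase_subset i I) d1
  ext x
  simp only [mem_preimage, SI, mem_ofPred_eq, ← mul_smul]
  rw [← hJ]
  have a1 : ‖(∏ i ∈ Jᶜ, u i) • x‖ < ρ / (∏ i ∈ J, u i : ℕ) ↔ x ∈ A u ρ J := Iff.rfl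
  rw [a1, A_iff_disjoint hu hco hρ' J x, and_assoc]
  apply and_congr_right
  intro hx0
  apply and_congr_right
  intro hx1
  rw [Finset.subset_iff]
  apply forall₂_congr
  intro i hiI
  rw [← hi i hiI, mem_R]
  have hiJ : i ∉ J := Finset.disjoint_left.mp hIJ hiI
  have e2 : ρ / (∏ i ∈ J, u i : ℕ) / (u i : ℕ) = ρ / (∏ l ∈ insert i J, u l : ℕ) := by
    rw [Finset.prod_insert hiJ, Nat.cast_mul, div_div, mul_comm]
  rw [e2]
  have a2 : ‖(∏ l ∈ (insert i J)ᶜ, u l) • x‖ < ρ / (∏ l ∈ insert i J, u l : ℕ) ↔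
      x ∈ A u ρ (insert i J) := Iff.rfl
  rw [a2, not_iff_not, A_iff hu hco hρ' (insert i J) x]
  constructor
  · rintro ⟨_, h⟩
    exact h i (Finset.mem_insert_self i J)
  · intro h
    refine ⟨hx0, fun j hj => ?_⟩
    rcases Finset.mem_insert.mp hj with rfl | hj
    · exact h
    · have := Finset.disjoint_right.mp hx1 hj
      rw [mem_R, not_not] at this
      exact this

/-- **The packing bound.** -/
lemma pack (μ : Measure UnitAddCircle) [IsProbabilityMeasure μ] {u : ι → ℕ} (hu : ∀ i, 0 < u i)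
    (hco : ∀ i j, i ≠ j → Nat.Coprime (u i) (u j)) (hinv : ∀ i, Inv μ (u i)) {ρ : ℝ}
    (hρ' : ρ ≤ 1 / 2) {m : ℕ} (J : Finset ι)
    (hle : ∀ I I' : Finset ι, I.card = m → I'.card = m →
      ((∏ i ∈ I, u i : ℕ) + (∏ i ∈ I', u i : ℕ)) * (ρ / (∏ i ∈ J, u i : ℕ)) ≤ (1 : ℝ)) :
    ∑ S : Finset ι, (if Disjoint S J then w μ u ρ S * (S.card.choose m : ℕ) else 0) ≤ 1 := by
  set ρ' := ρ / (∏ i ∈ J, u i : ℕ) with hρ''
  have h1 : ∑ S : Finset ι, (if Disjoint S J then w μ u ρ S * (S.card.choose m : ℕ) else 0) =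
      ∑ I ∈ (Finset.powersetCard m (Finset.univ : Finset ι)).filter (fun I => Disjoint I J),
        μ.real {x | x ∈ A u ρ ∅ ∧ (Disjoint (R u ρ x) J ∧ I ⊆ R u ρ x)} := by
    have : ∀ I : Finset ι, μ.real {x | x ∈ A u ρ ∅ ∧ (Disjoint (R u ρ x) J ∧ I ⊆ R u ρ x)} =
        ∑ S : Finset ι, (if Disjoint S J ∧ I ⊆ S then w μ u ρ S else 0) := fun I =>
      (sum_w μ u ρ (fun S => Disjoint S J ∧ I ⊆ S)).symm
    simp_rw [this]
    rw [Finset.sum_comm]
    apply Finset.sum_congr rfl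
    intro S _
    by_cases hS : Disjoint S J
    · simp only [hS, true_and, if_true]
      rw [← Finset.sum_filter, Finset.sum_const, nsmul_eq_mul, mul_comm]
      congr 2
      have : ((Finset.powersetCard m (Finset.univ : Finset ι)).filter
          (fun I => Disjoint I J)).filter (fun I => I ⊆ S) = Finset.powersetCard m S := by
        ext I
        simp only [Finset.mem_filter, Finset.mem_powersetCard, Finset.subset_univ, true_and]
        constructor
        · rintro ⟨⟨h, _⟩, h'⟩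
          exact ⟨h', h⟩
        · rintro ⟨h', h⟩
          exact ⟨⟨h, Finset.disjoint_of_subset_left h' hS⟩, h'⟩
      rw [this, Finset.card_powersetCard]
    · simp [hS]
  rw [h1]
  have h2 : ∀ I ∈ (Finset.powersetCard m (Finset.univ : Finset ι)).filter
      (fun I => Disjoint I J),
      μ.real {x | x ∈ A u ρ ∅ ∧ (Disjoint (R u ρ x) J ∧ I ⊆ R u ρ x)} =
        μ.real (SI u ρ' I) := by
    intro I hI
    rw [← SI_preimage hu hco hρ' (Finset.mem_filter.mp hI).2]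
    have hi : Inv μ (∏ i ∈ (I ∪ J)ᶜ, u i) := Inv.prod _ _ fun i _ => hinv i
    rw [Measure.real, Measure.real, hi.measure_preimage (measurableSet_SI u ρ' I).nullMeasurableSet]
  rw [Finset.sum_congr rfl h2, ← measureReal_biUnion_finset]
  · exact measureReal_le_one
  · intro I hI I' hI' hne
    have hI1 := (Finset.mem_powersetCard.mp (Finset.mem_filter.mp hI).1).2
    have hI1' := (Finset.mem_powersetCard.mp (Finset.mem_filter.mp hI').1).2
    apply SI_disjoint hu hco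
    · intro hsub
      exact hne (Finset.eq_of_subset_of_card_le hsub (by rw [hI1, hI1']))
    · exact hle I I' hI1 hI1'
  · intro I _
    exact measurableSet_SI u ρ' I

end Pool.Agent.H237.Gap
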