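import Mathlib
import Pool.Agent.H237.Gap.Pack

/-!
# The key inequality between the masses of balls at different scales
-/

namespace Pool.Agent.H237.Gap

open MeasureTheory Set

theorem key (μ : Measure UnitAddCircle) [IsProbabilityMeasure μ] {n m : ℕ} (hn : 3 ≤ n)
    (hm : 1 ≤ m) {ι : Type*} [Fintype ι] [DecidableEq ι] (hcard : Fintype.card ι = 4 * n * m)
    {u : ι → ℕ} {H : ℝ} (hH : 2 * Real.log 2 ≤ H)
    (hu : ∀ i, Real.exp (H - H / (4 * m)) ≤ u i) (hu' : ∀ i, (u i : ℝ) ≤ Real.exp H)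
    (hco : ∀ i j, i ≠ j → Nat.Coprime (u i) (u j)) (hinv : ∀ i, Inv μ (u i)) :
    (1 - 1 / (4 * n * m : ℕ)) *
      (g μ (Real.exp (-(2 * H))) - g μ (Real.exp (-(5 / 2 * H)))) ≤
      3 / n * (g μ (Real.exp (-H)) - g μ (Real.exp (-((n + 1) * H)))) + 1 / 4 * (1 / 2) ^ m := by
  have hlog : (0 : ℝ) < Real.log 2 := Real.log_pos (by norm_num)
  have hH0 : 0 < H := by linarith
  have hmR : (1 : ℝ) ≤ m := by exact_mod_cast hm
  have hupos : ∀ i, 0 < u i := by
    intro i
    have : (0 : ℝ) < u i := lt_of_lt_of_le (Real.exp_pos _) (hu i)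
    exact_mod_cast this
  have hρ' : Real.exp (-H) ≤ 1 / 2 := by
    have : Real.exp (-H) ≤ Real.exp (-Real.log 2) := Real.exp_le_exp.mpr (by linarith)
    rw [Real.exp_neg (Real.log 2), Real.exp_log (by norm_num)] at this
    linarith
  have hJle : ∀ J : Finset ι, ((∏ i ∈ J, u i : ℕ) : ℝ) ≤ Real.exp (J.card * H) := by
    intro J
    push_cast
    calc ∏ i ∈ J, (u i : ℝ) ≤ ∏ i ∈ J, Real.exp H :=
          Finset.prod_le_prod (fun i _ => by positivity) fun i _ => hu' i
      _ = Real.exp (J.card * H) := by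
          rw [Finset.prod_const, ← Real.exp_nat_mul]
  have hJge : ∀ J : Finset ι, Real.exp (J.card * (H - H / (4 * m))) ≤
      ((∏ i ∈ J, u i : ℕ) : ℝ) := by
    intro J
    push_cast
    calc Real.exp (J.card * (H - H / (4 * m))) = ∏ i ∈ J, Real.exp (H - H / (4 * m)) := by
          rw [Finset.prod_const, ← Real.exp_nat_mul]
      _ ≤ ∏ i ∈ J, (u i : ℝ) :=
          Finset.prod_le_prod (fun i _ => (Real.exp_pos _).le) fun i _ => hu i
  have hJpos : ∀ J : Finset ι, (0 : ℝ) < ((∏ i ∈ J, u i : ℕ) : ℝ) := by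
    intro J
    exact_mod_cast prod_pos' hupos J
  have hFw := fun J : Finset ι => F_w μ hupos hco hinv hρ' J
  apply comb (w μ u (Real.exp (-H))) (w_nonneg μ u _) hn hm hcard
  · intro J hJ
    apply pack μ hupos hco hinv hρ' J
    intro I I' hI hI'
    have h1 := hJle I
    have h2 := hJle I'
    have h3 := hJge J
    rw [hI] at h1
    rw [hI'] at h2
    rw [hJ] at h3
    have h4 : Real.exp (-H) / (∏ i ∈ J, u i : ℕ) ≤ Real.exp (-H) / Real.exp (m * (H - H / (4 * m))) :=
      div_le_div_of_nonneg_left (Real.exp_pos _).le (Real.exp_pos _) h3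
    calc (((∏ i ∈ I, u i : ℕ) : ℝ) + (∏ i ∈ I', u i : ℕ)) * (Real.exp (-H) / (∏ i ∈ J, u i : ℕ))
        ≤ (Real.exp (m * H) + Real.exp (m * H)) *
            (Real.exp (-H) / Real.exp (m * (H - H / (4 * m)))) := by
          apply mul_le_mul (add_le_add h1 h2) h4
          · exact div_nonneg (Real.exp_pos _).le (hJpos J).le
          · positivity
      _ = 2 * Real.exp (-(3 / 4 * H)) := by
          rw [← Real.exp_sub, ← two_mul, mul_assoc, ← Real.exp_add]
          congr 2
          field_simp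
          ring
      _ ≤ 1 := by
          have : Real.exp (-(3 / 4 * H)) ≤ Real.exp (-Real.log 2) :=
            Real.exp_le_exp.mpr (by linarith)
          rw [Real.exp_neg (Real.log 2), Real.exp_log (by norm_num)] at this
          linarith
  · intro J hJ
    rw [hFw, hFw]
    simp only [Finset.prod_empty, Nat.cast_one, div_one]
    apply sub_le_sub_left
    apply g_mono
    have h1 : (J.card : ℝ) ≤ n := by exact_mod_cast hJ
    rw [le_div_iff₀ (hJpos J)]
    calc Real.exp (-((n + 1) * H)) * ((∏ i ∈ J, u i : ℕ) : ℝ)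
        ≤ Real.exp (-((n + 1) * H)) * Real.exp (J.card * H) :=
          mul_le_mul_of_nonneg_left (hJle J) (Real.exp_pos _).le
      _ = Real.exp (-((n + 1) * H) + J.card * H) := by rw [Real.exp_add]
      _ ≤ Real.exp (-H) := Real.exp_le_exp.mpr (by nlinarith)
  · intro j j' hne
    rw [hFw, hFw]
    apply sub_le_sub
    · apply g_mono
      rw [Finset.prod_singleton, le_div_iff₀ (by exact_mod_cast hupos j)]
      calc Real.exp (-(2 * H)) * (u j : ℝ) ≤ Real.exp (-(2 * H)) * Real.exp H :=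
            mul_le_mul_of_nonneg_left (hu' j) (Real.exp_pos _).le
        _ = Real.exp (-H) := by rw [← Real.exp_add]; congr 1; ring
    · apply g_mono
      have h1 := hJge {j, j'}
      rw [Finset.card_pair hne] at h1
      rw [div_le_iff₀ (hJpos _)]
      calc Real.exp (-H) ≤ Real.exp (-(5 / 2 * H) + (2 : ℕ) * (H - H / (4 * m))) := by
            apply Real.exp_le_exp.mpr
            have : H / (4 * m) ≤ H / 4 := by
              apply div_le_div_of_nonneg_left hH0.le (by norm_num) (by linarith)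
            push_cast
            linarith
        _ = Real.exp (-(5 / 2 * H)) * Real.exp ((2 : ℕ) * (H - H / (4 * m))) := by
            rw [Real.exp_add]
        _ ≤ _ := mul_le_mul_of_nonneg_left h1 (Real.exp_pos _).le

/-- The largest power of `p` below `exp H`. -/
lemma exists_pow {p : ℕ} (hp : 2 ≤ p) {H c : ℝ} (hH : 0 ≤ H) (hc : Real.log p ≤ c) :
    ∃ a : ℕ, Real.exp (H - c) ≤ ((p ^ a : ℕ) : ℝ) ∧ ((p ^ a : ℕ) : ℝ) ≤ Real.exp H := by
  have hpR : (2 : ℝ) ≤ p := by exact_mod_cast hp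
  have hlp : 0 < Real.log p := Real.log_pos (by linarith)
  refine ⟨⌊H / Real.log p⌋₊, ?_, ?_⟩
  · have h1 : H / Real.log p < ⌊H / Real.log p⌋₊ + 1 := Nat.lt_floor_add_one _
    rw [div_lt_iff₀ hlp] at h1
    push_cast
    rw [← Real.rpow_natCast, Real.rpow_def_of_pos (by linarith)]
    apply Real.exp_le_exp.mpr
    nlinarith
  · have h1 : (⌊H / Real.log p⌋₊ : ℝ) ≤ H / Real.log p := Nat.floor_le (by positivity)
    rw [le_div_iff₀ hlp] at h1
    push_cast
    rw [← Real.rpow_natCast, Real.rpow_def_of_pos (by linarith)]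
    apply Real.exp_le_exp.mpr
    nlinarith

/-- The key inequality for measures invariant under many coprime multiplications. -/
theorem keyP (μ : Measure UnitAddCircle) [IsProbabilityMeasure μ] {n m : ℕ} (hn : 3 ≤ n)
    (hm : 1 ≤ m) (s : Finset ℕ) (hs : s.card = 4 * n * m) (h2 : ∀ p ∈ s, 2 ≤ p)
    (hco : (s : Set ℕ).Pairwise Nat.Coprime) {H : ℝ} (hH : 2 * Real.log 2 ≤ H)
    (hsm : ∀ p ∈ s, Real.log p ≤ H / (4 * m)) (hinv : ∀ p ∈ s, Inv μ p) :
    (1 - 1 / (4 * n * m : ℕ)) *
      (g μ (Real.exp (-(2 * H))) - g μ (Real.exp (-(5 / 2 * H)))) ≤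
      3 / n * (g μ (Real.exp (-H)) - g μ (Real.exp (-((n + 1) * H)))) + 1 / 4 * (1 / 2) ^ m := by
  have hlog : (0 : ℝ) < Real.log 2 := Real.log_pos (by norm_num)
  have hH0 : 0 < H := by linarith
  have hex : ∀ p : s, ∃ a : ℕ, Real.exp (H - H / (4 * m)) ≤ (((p : ℕ) ^ a : ℕ) : ℝ) ∧
      (((p : ℕ) ^ a : ℕ) : ℝ) ≤ Real.exp H := fun p =>
    exists_pow (h2 p p.2) hH0.le (hsm p p.2)
  choose a ha ha' using hex
  refine key μ hn hm (ι := s) (by simpa using hs) (u := fun p => (p : ℕ) ^ a p) hH ha ha' ?_ ?_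
  · intro i j hij
    apply Nat.Coprime.pow
    exact hco i.2 j.2 (fun h => hij (Subtype.ext h))
  · intro i
    exact (hinv i i.2).pow _

end Pool.Agent.H237.Gap
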