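import Mathlib
import Pool.Agent.H237.Gap.Key

/-!
# Summation of the key inequality over the scales
-/

namespace Pool.Agent.H237.Gap

open MeasureTheory Set Filter Topology

lemma sum_shift (b : ℕ → ℝ) (J K : ℕ) :
    ∑ i ∈ Finset.range K, (b (J + i) - b (J + i + 20)) =
      ∑ l ∈ Finset.range 20, (b (J + l) - b (J + l + K)) := by
  induction K with
  | zero => simp
  | succ K ih =>
    rw [Finset.sum_range_succ, ih]
    have : b (J + K) - b (J + K + 20) =
        ∑ l ∈ Finset.range 20, (b (J + K + l) - b (J + K + (l + 1))) := by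
      rw [Finset.sum_range_sub' (fun l => b (J + K + l)) 20]
      simp
    rw [this, ← Finset.sum_add_distrib]
    apply Finset.sum_congr rfl
    intro l _
    have e1 : J + l + K = J + K + l := by ring
    have e2 : J + l + (K + 1) = J + K + (l + 1) := by ring
    rw [e1, e2]
    ring

lemma one_step {b e : ℕ → ℝ} (hb : Antitone b) (hb0 : ∀ j, 0 ≤ b j)
    (hlim : Tendsto b atTop (𝓝 0)) (he : ∀ j, 0 ≤ e j) (hes : Summable e) {j₀ : ℕ}
    (h : ∀ j, j₀ ≤ j → b (j + 4) - b (j + 5) ≤ 4 / 85 * (b j - b (j + 20)) + e j)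
    {J : ℕ} (hJ : j₀ ≤ J) :
    b (J + 4) ≤ 16 / 17 * b J + ∑' i, e (J + i) := by
  have hs : Summable fun i => e (J + i) := by
    have := (summable_nat_add_iff J).mpr hes
    simpa [add_comm] using this
  have h1 : ∀ K : ℕ, b (J + 4) - b (J + 4 + K) ≤ 16 / 17 * b J + ∑' i, e (J + i) := by
    intro K
    have t1 : b (J + 4) - b (J + 4 + K) =
        ∑ i ∈ Finset.range K, (b (J + i + 4) - b (J + i + 5)) := by
      have := Finset.sum_range_sub' (fun l => b (J + 4 + l)) K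
      simp only [add_zero] at this
      rw [← this]
      apply Finset.sum_congr rfl
      intro i _
      have e1 : J + i + 4 = J + 4 + i := by ring
      have e2 : J + i + 5 = J + 4 + (i + 1) := by ring
      rw [e1, e2]
    rw [t1]
    calc ∑ i ∈ Finset.range K, (b (J + i + 4) - b (J + i + 5))
        ≤ ∑ i ∈ Finset.range K, (4 / 85 * (b (J + i) - b (J + i + 20)) + e (J + i)) := by
          apply Finset.sum_le_sum
          intro i _
          exact h (J + i) (by omega)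
      _ = 4 / 85 * ∑ l ∈ Finset.range 20, (b (J + l) - b (J + l + K)) +
            ∑ i ∈ Finset.range K, e (J + i) := by
          rw [Finset.sum_add_distrib, ← Finset.mul_sum, sum_shift]
      _ ≤ 4 / 85 * ∑ l ∈ Finset.range 20, b J + ∑' i, e (J + i) := by
          have a1 : ∑ l ∈ Finset.range 20, (b (J + l) - b (J + l + K)) ≤
              ∑ l ∈ Finset.range 20, b J := by
            apply Finset.sum_le_sum
            intro l _
            have := hb (show J ≤ J + l by omega)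
            have := hb0 (J + l + K)
            linarith
          have a2 : ∑ i ∈ Finset.range K, e (J + i) ≤ ∑' i, e (J + i) :=
            hs.sum_le_tsum _ (fun i _ => he _)
          linarith
      _ = _ := by
          rw [Finset.sum_const, Finset.card_range, nsmul_eq_mul]
          ring
  have h2 : Tendsto (fun K => b (J + 4) - b (J + 4 + K)) atTop (𝓝 (b (J + 4) - 0)) := by
    apply Tendsto.sub tendsto_const_nhds
    apply hlim.comp
    exact tendsto_atTop_mono (fun K => by simp) tendsto_id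
  have h3 := le_of_tendsto' h2 h1
  simpa using h3

theorem uniform {e : ℕ → ℝ} (he : ∀ j, 0 ≤ e j) (hes : Summable e) (j₀ : ℕ) {ε : ℝ}
    (hε : 0 < ε) :
    ∃ J : ℕ, ∀ b : ℕ → ℝ, Antitone b → (∀ j, 0 ≤ b j) → b 0 ≤ 1 → Tendsto b atTop (𝓝 0) →
      (∀ j, j₀ ≤ j → b (j + 4) - b (j + 5) ≤ 4 / 85 * (b j - b (j + 20)) + e j) →
      b J ≤ ε := by
  obtain ⟨J₀, hJ₀, hE⟩ : ∃ J₀, j₀ ≤ J₀ ∧ ∑' i, e (J₀ + i) ≤ ε / 34 := by
    have ht := tendsto_sum_nat_add e
    have := (ht.eventually (ge_mem_nhds (show (0 : ℝ) < ε / 34 by positivity))).and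
      (eventually_ge_atTop j₀)
    obtain ⟨J₀, h1, h2⟩ := this.exists
    refine ⟨J₀, h2, ?_⟩
    simpa [add_comm] using h1
  obtain ⟨i, hi⟩ : ∃ i : ℕ, (16 / 17 : ℝ) ^ i ≤ ε / 2 := by
    obtain ⟨i, hi⟩ := exists_pow_lt_of_lt_one (show (0 : ℝ) < ε / 2 by positivity)
      (show (16 / 17 : ℝ) < 1 by norm_num)
    exact ⟨i, hi.le⟩
  refine ⟨J₀ + 4 * i, ?_⟩
  intro b hb hb0 hb1 hlim h
  have hEmono : ∀ l, ∑' i, e (J₀ + l + i) ≤ ε / 34 := by
    intro l
    refine le_trans ?_ hE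
    have hs : Summable fun i => e (J₀ + i) := by
      have := (summable_nat_add_iff J₀).mpr hes
      simpa [add_comm] using this
    have := hs.sum_add_tsum_nat_add l
    have h0 : 0 ≤ ∑ i ∈ Finset.range l, e (J₀ + i) := Finset.sum_nonneg fun i _ => he _
    have e1 : ∑' i, e (J₀ + l + i) = ∑' i, e (J₀ + (i + l)) := by
      congr 1; ext i; congr 1; ring
    rw [e1]
    linarith
  have hrec : ∀ l : ℕ, b (J₀ + 4 * l) ≤ (16 / 17) ^ l + 17 * (ε / 34) := by
    intro l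
    induction l with
    | zero =>
      have : b J₀ ≤ b 0 := hb (Nat.zero_le _)
      simp only [mul_zero, add_zero, pow_zero]
      linarith
    | succ l ih =>
      have h1 := one_step hb hb0 hlim he hes h (show j₀ ≤ J₀ + 4 * l by omega)
      have h2 := hEmono (4 * l)
      have e1 : J₀ + 4 * (l + 1) = J₀ + 4 * l + 4 := by ring
      rw [e1, pow_succ]
      linarith
  have := hrec i
  linarith

/-- The masses of the balls of radius `exp (- (5/4) ^ j)`, without the centre. -/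
noncomputable def b (μ : Measure UnitAddCircle) (j : ℕ) : ℝ :=
  g μ (Real.exp (-((5 / 4 : ℝ) ^ j))) - μ.real {0}

lemma b_antitone (μ : Measure UnitAddCircle) [IsFiniteMeasure μ] : Antitone (b μ) := by
  intro i j hij
  unfold b
  apply sub_le_sub_right
  apply g_mono
  apply Real.exp_le_exp.mpr
  have : (5 / 4 : ℝ) ^ i ≤ (5 / 4 : ℝ) ^ j := pow_le_pow_right₀ (by norm_num) hij
  linarith

lemma b_eq (μ : Measure UnitAddCircle) [IsFiniteMeasure μ] (j : ℕ) :
    b μ j = μ.real {x | x ≠ 0 ∧ ‖x‖ < Real.exp (-((5 / 4 : ℝ) ^ j))} := by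
  unfold b g
  have h1 : {x : UnitAddCircle | ‖x‖ < Real.exp (-((5 / 4 : ℝ) ^ j))} =
      {0} ∪ {x | x ≠ 0 ∧ ‖x‖ < Real.exp (-((5 / 4 : ℝ) ^ j))} := by
    ext x
    simp only [mem_ofPred_eq, mem_union, mem_singleton_iff]
    by_cases h : x = 0
    · simp [h, Real.exp_pos]
    · simp [h]
  rw [h1, measureReal_union]
  · ring
  · rw [Set.disjoint_left]
    rintro x hx ⟨h, _⟩
    exact h hx
  · have e : {x : UnitAddCircle | x ≠ 0 ∧ ‖x‖ < Real.exp (-((5 / 4 : ℝ) ^ j))} =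
      {0}ᶜ ∩ {x | ‖x‖ < Real.exp (-((5 / 4 : ℝ) ^ j))} := by
      ext x; simp
    rw [e]
    apply (measurableSet_singleton 0).compl.inter
    have := measurableSet_lt 1 (Real.exp (-((5 / 4 : ℝ) ^ j)))
    simpa using this

lemma b_nonneg (μ : Measure UnitAddCircle) [IsFiniteMeasure μ] (j : ℕ) : 0 ≤ b μ j := by
  rw [b_eq]
  exact measureReal_nonneg

lemma b_le_one (μ : Measure UnitAddCircle) [IsProbabilityMeasure μ] (j : ℕ) : b μ j ≤ 1 := by
  rw [b_eq]
  exact measureReal_le_one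

lemma b_tendsto (μ : Measure UnitAddCircle) [IsFiniteMeasure μ] :
    Tendsto (b μ) atTop (𝓝 0) := by
  have h1 : Tendsto (fun j => μ.real {x : UnitAddCircle | x ≠ 0 ∧
      ‖x‖ < Real.exp (-((5 / 4 : ℝ) ^ j))}) atTop (𝓝 (μ.real (⋂ j : ℕ, {x : UnitAddCircle |
        x ≠ 0 ∧ ‖x‖ < Real.exp (-((5 / 4 : ℝ) ^ j))}))) := by
    unfold Measure.real
    apply (ENNReal.tendsto_toReal (measure_ne_top _ _)).comp
    apply tendsto_measure_iInter_atTop
    · intro j
      have e : {x : UnitAddCircle | x ≠ 0 ∧ ‖x‖ < Real.exp (-((5 / 4 : ℝ) ^ j))} =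
        {0}ᶜ ∩ {x | ‖x‖ < Real.exp (-((5 / 4 : ℝ) ^ j))} := by
        ext x; simp
      rw [e]
      apply MeasurableSet.nullMeasurableSet
      apply (measurableSet_singleton 0).compl.inter
      have := measurableSet_lt 1 (Real.exp (-((5 / 4 : ℝ) ^ j)))
      simpa using this
    · intro i j hij x hx
      refine ⟨hx.1, lt_of_lt_of_le hx.2 ?_⟩
      apply Real.exp_le_exp.mpr
      have : (5 / 4 : ℝ) ^ i ≤ (5 / 4 : ℝ) ^ j := pow_le_pow_right₀ (by norm_num) hij
      linarith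
    · exact ⟨0, measure_ne_top _ _⟩
  have h2 : (⋂ j : ℕ, {x : UnitAddCircle | x ≠ 0 ∧ ‖x‖ < Real.exp (-((5 / 4 : ℝ) ^ j))}) = ∅ := by
    rw [Set.eq_empty_iff_forall_notMem]
    intro x hx
    rw [mem_iInter] at hx
    have hx0 : x ≠ 0 := (hx 0).1
    have hpos : 0 < ‖x‖ := norm_pos_iff.mpr hx0
    have ht : Tendsto (fun j : ℕ => Real.exp (-((5 / 4 : ℝ) ^ j))) atTop (𝓝 0) := by
      apply Real.tendsto_exp_neg_atTop_nhds_zero.comp
      exact tendsto_pow_atTop_atTop_of_one_lt (by norm_num)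
    obtain ⟨j, hj⟩ := (ht.eventually (gt_mem_nhds hpos)).exists
    exact absurd (hx j).2 (not_lt.mpr hj.le)
  rw [h2] at h1
  simp only [measureReal_empty] at h1
  exact h1.congr fun j => (b_eq μ j).symm

/-- One scale. -/
lemma b_step (μ : Measure UnitAddCircle) [IsProbabilityMeasure μ] {m : ℕ} (hm : 1 ≤ m)
    (s : Finset ℕ) (hs : s.card = 256 * m) (h2 : ∀ p ∈ s, 2 ≤ p)
    (hco : (s : Set ℕ).Pairwise Nat.Coprime) (hinv : ∀ p ∈ s, Inv μ p) {j : ℕ} (hj : 1 ≤ j)
    (hsm : ∀ p ∈ s, Real.log p ≤ (5 / 4 : ℝ) ^ (j + 4) / 2 / (4 * m)) :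
    b μ (j + 4) - b μ (j + 5) ≤ 4 / 85 * (b μ j - b μ (j + 20)) + (1 / 2) ^ m := by
  set H : ℝ := (5 / 4 : ℝ) ^ (j + 4) / 2 with hHdef
  have hH : 2 * Real.log 2 ≤ H := by
    have h1 : Real.log 2 ≤ 0.6931471808 := Real.log_two_lt_d9.le
    have h3 : (5 / 4 : ℝ) ^ 5 ≤ (5 / 4 : ℝ) ^ (j + 4) :=
      pow_le_pow_right₀ (by norm_num) (by omega)
    rw [hHdef]
    norm_num at h3 ⊢
    linarith
  have h := keyP μ (n := 64) (by norm_num) hm s (by rw [hs]) h2 hco hH hsm hinv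
  have e1 : 2 * H = (5 / 4 : ℝ) ^ (j + 4) := by rw [hHdef]; ring
  have e2 : 5 / 2 * H = (5 / 4 : ℝ) ^ (j + 5) := by rw [hHdef, pow_succ _ (j + 4)]; ring
  rw [e1, e2] at h
  have hpj : (0 : ℝ) < (5 / 4 : ℝ) ^ j := by positivity
  have l1 : g μ (Real.exp (-H)) ≤ g μ (Real.exp (-((5 / 4 : ℝ) ^ j))) := by
    apply g_mono
    apply Real.exp_le_exp.mpr
    rw [hHdef, pow_add]
    norm_num
    linarith
  have l2 : g μ (Real.exp (-((5 / 4 : ℝ) ^ (j + 20)))) ≤
      g μ (Real.exp (-(((64 : ℕ) + 1) * H))) := by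
    apply g_mono
    apply Real.exp_le_exp.mpr
    rw [hHdef, pow_add, pow_add]
    norm_num
    linarith
  have hx : 0 ≤ g μ (Real.exp (-((5 / 4 : ℝ) ^ (j + 4)))) - g μ (Real.exp (-((5 / 4 : ℝ) ^ (j + 5)))) := by
    have := b_antitone μ (show j + 4 ≤ j + 5 by omega)
    unfold b at this
    linarith
  have hm' : (1 : ℝ) ≤ m := by exact_mod_cast hm
  have hk : (1 : ℝ) / (4 * 64 * m : ℕ) ≤ 1 / 256 := by
    push_cast
    apply one_div_le_one_div_of_le (by norm_num)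
    linarith
  have hpow : (0 : ℝ) ≤ (1 / 2) ^ m := by positivity
  unfold b
  have h4 : (1 - 1 / 256 : ℝ) * (g μ (Real.exp (-((5 / 4 : ℝ) ^ (j + 4)))) -
      g μ (Real.exp (-((5 / 4 : ℝ) ^ (j + 5))))) ≤
      3 / 64 * (g μ (Real.exp (-((5 / 4 : ℝ) ^ j))) - g μ (Real.exp (-((5 / 4 : ℝ) ^ (j + 20))))) +
        1 / 4 * (1 / 2) ^ m := by
    calc (1 - 1 / 256 : ℝ) * (g μ (Real.exp (-((5 / 4 : ℝ) ^ (j + 4)))) -
      g μ (Real.exp (-((5 / 4 : ℝ) ^ (j + 5))))) ≤ (1 - 1 / (4 * 64 * m : ℕ)) *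
      (g μ (Real.exp (-((5 / 4 : ℝ) ^ (j + 4)))) -
      g μ (Real.exp (-((5 / 4 : ℝ) ^ (j + 5))))) :=
          mul_le_mul_of_nonneg_right (by linarith) hx
      _ ≤ _ := h
      _ ≤ _ := by
        push_cast at l2 ⊢
        linarith
  linarith

end Pool.Agent.H237.Gap
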