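import Mathlib
import Pool.Agent.H237.Gap.Iter

/-!
# Sets of multipliers which are not too sparse
-/

namespace Pool.Agent.H237.Gap

open MeasureTheory Set Filter Topology

/-- The number of exponents used at the scale `j`. -/
def mm (j : ℕ) : ℕ := 2 * Nat.clog 2 (j + 1)

lemma mm_pos {j : ℕ} (hj : 1 ≤ j) : 1 ≤ mm j := by
  unfold mm
  have : 0 < Nat.clog 2 (j + 1) := Nat.clog_pos (by norm_num) (by omega)
  omega

lemma summable_e : Summable fun j : ℕ => (1 / 2 : ℝ) ^ mm j := by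
  have h1 : Summable fun j : ℕ => 1 / ((j : ℝ) + 1) ^ 2 := by
    have := (summable_nat_add_iff 1).mpr (Real.summable_one_div_nat_pow.mpr (by norm_num : 1 < 2))
    simpa using this
  apply Summable.of_nonneg_of_le (fun j => by positivity) _ h1
  intro j
  unfold mm
  rw [mul_comm, pow_mul]
  have h2 : j + 1 ≤ 2 ^ Nat.clog 2 (j + 1) := Nat.le_pow_clog (by norm_num) _
  have h3 : ((j : ℝ) + 1) ≤ 2 ^ Nat.clog 2 (j + 1) := by exact_mod_cast h2
  rw [one_div_pow, one_div_pow]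
  apply one_div_le_one_div_of_le (by positivity)
  exact pow_le_pow_left₀ (by positivity) h3 2

/-- The set `P` is not too sparse: up to `x` it has at least `1000 log log log x` elements. -/
def Dense3 (P : Set ℕ) : Prop :=
  ∀ᶠ x : ℝ in atTop, 1000 * Real.log (Real.log (Real.log x)) ≤ ({p ∈ P | (p : ℝ) ≤ x}.ncard : ℝ)

lemma clog_le (j : ℕ) (hj : 1 ≤ j) :
    (Nat.clog 2 (j + 1) : ℝ) ≤ Real.log (j + 1) / Real.log 2 + 1 := by
  have hlog : (0 : ℝ) < Real.log 2 := Real.log_pos (by norm_num)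
  have h1 : 2 ^ (Nat.clog 2 (j + 1)).pred < j + 1 :=
    Nat.pow_pred_clog_lt_self (by norm_num) (by omega)
  have hpos : 0 < Nat.clog 2 (j + 1) := Nat.clog_pos (by norm_num) (by omega)
  obtain ⟨c, hc⟩ : ∃ c, Nat.clog 2 (j + 1) = c + 1 := ⟨Nat.clog 2 (j + 1) - 1, by omega⟩
  rw [hc] at h1 ⊢
  simp only [Nat.pred_succ] at h1
  have h2 : ((2 : ℝ) ^ c) < j + 1 := by exact_mod_cast h1
  have h3 : c * Real.log 2 < Real.log (j + 1) := by
    rw [← Real.log_pow]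
    exact Real.log_lt_log (by positivity) h2
  have h4 : (c : ℝ) ≤ Real.log (j + 1) / Real.log 2 := by
    rw [le_div_iff₀ hlog]
    exact h3.le
  push_cast
  linarith

lemma ev1 : ∀ᶠ j : ℕ in atTop, (6 / 5 : ℝ) ^ j ≤ (5 / 4 : ℝ) ^ (j + 4) / 2 / (4 * mm j) := by
  have h1 : Tendsto (fun j : ℕ => (j : ℝ) ^ 1 / (25 / 24 : ℝ) ^ j) atTop (𝓝 0) :=
    tendsto_pow_const_div_const_pow_of_one_lt 1 (by norm_num)
  have h2 := h1.eventually (gt_mem_nhds (show (0 : ℝ) < 1 / 32 by norm_num))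
  filter_upwards [h2, eventually_ge_atTop 1] with j h hj
  have hmm : 1 ≤ mm j := mm_pos hj
  have hmmR : (1 : ℝ) ≤ mm j := by exact_mod_cast hmm
  have hcl : Nat.clog 2 (j + 1) ≤ j + 1 := Nat.clog_le_of_le_pow (Nat.lt_two_pow_self).le
  have hmj : mm j ≤ 2 * (j + 1) := by unfold mm; omega
  have hmjR : (mm j : ℝ) ≤ 4 * j := by
    have : (mm j : ℝ) ≤ 2 * (j + 1) := by exact_mod_cast hmj
    have : (1 : ℝ) ≤ j := by exact_mod_cast hj
    linarith
  rw [pow_one, div_lt_iff₀ (by positivity)] at h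
  rw [le_div_iff₀ (by positivity), le_div_iff₀ (by norm_num)]
  have h3 : (5 / 4 : ℝ) ^ (j + 4) = (6 / 5) ^ j * (25 / 24) ^ j * (5 / 4) ^ 4 := by
    rw [pow_add, ← mul_pow]; norm_num
  rw [h3]
  have h4 : (0 : ℝ) < (6 / 5) ^ j := by positivity
  calc (6 / 5 : ℝ) ^ j * (4 * mm j) * 2 ≤ (6 / 5 : ℝ) ^ j * (4 * (4 * j)) * 2 := by gcongr
    _ = (6 / 5 : ℝ) ^ j * (32 * j) := by ring
    _ ≤ (6 / 5 : ℝ) ^ j * (25 / 24) ^ j := by
        apply mul_le_mul_of_nonneg_left _ h4.le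
        linarith
    _ ≤ (6 / 5 : ℝ) ^ j * (25 / 24) ^ j * (5 / 4) ^ 4 := by
        apply le_mul_of_one_le_right (by positivity)
        norm_num

lemma ev2 : ∀ᶠ j : ℕ in atTop, (256 * mm j : ℝ) ≤ 1000 * Real.log (j / 6) := by
  have ht : Tendsto (fun j : ℕ => Real.log ((j : ℝ) + 1)) atTop atTop :=
    Real.tendsto_log_atTop.comp (tendsto_atTop_add_const_right _ _ tendsto_natCast_atTop_atTop)
  filter_upwards [ht.eventually (eventually_ge_atTop ((512 + 1000 * Real.log 12) / 261)),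
    eventually_ge_atTop 1] with j h hj
  have hlog2 : 0.6931471803 < Real.log 2 := Real.log_two_gt_d9
  have hjR : (1 : ℝ) ≤ j := by exact_mod_cast hj
  have hL0 : 0 ≤ Real.log ((j : ℝ) + 1) := Real.log_nonneg (by linarith)
  have h1 := clog_le j hj
  have h2 : Real.log ((j : ℝ) + 1) / Real.log 2 ≤ 739 / 512 * Real.log ((j : ℝ) + 1) := by
    rw [div_le_iff₀ (by linarith)]
    have : 1 ≤ 739 / 512 * Real.log 2 := by linarith
    nlinarith
  have h3 : Real.log ((j : ℝ) + 1) - Real.log 12 ≤ Real.log (j / 6) := by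
    rw [← Real.log_div (by positivity) (by norm_num)]
    apply Real.log_le_log (by positivity)
    linarith
  rw [div_le_iff₀ (by norm_num)] at h
  unfold mm
  push_cast
  linarith

lemma exists_sets {P : Set ℕ} (hP : Dense3 P) :
    ∃ j₀ : ℕ, 1 ≤ j₀ ∧ ∀ j, j₀ ≤ j → ∃ s : Finset ℕ, (s : Set ℕ) ⊆ P ∧ s.card = 256 * mm j ∧
      ∀ p ∈ s, (p : ℝ) ≤ Real.exp ((5 / 4 : ℝ) ^ (j + 4) / 2 / (4 * mm j)) := by
  have hx : Tendsto (fun j : ℕ => Real.exp ((5 / 4 : ℝ) ^ (j + 4) / 2 / (4 * mm j))) atTop atTop := by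
    apply Real.tendsto_exp_atTop.comp
    apply tendsto_atTop_mono' _ ev1
    exact tendsto_pow_atTop_atTop_of_one_lt (by norm_num)
  have hP' := hx.eventually hP
  have h := (hP'.and (ev1.and (ev2.and (eventually_ge_atTop 1))))
  obtain ⟨j₀, hj₀⟩ := eventually_atTop.mp h
  refine ⟨max j₀ 1, le_max_right _ _, ?_⟩
  intro j hj
  obtain ⟨h1, h2, h3, h4⟩ := hj₀ j (le_trans (le_max_left _ _) hj)
  set x := Real.exp ((5 / 4 : ℝ) ^ (j + 4) / 2 / (4 * mm j)) with hxdef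
  have hjR : (1 : ℝ) ≤ j := by exact_mod_cast h4
  have e1 : Real.log x = (5 / 4 : ℝ) ^ (j + 4) / 2 / (4 * mm j) := Real.log_exp _
  have e2 : (j : ℝ) / 6 ≤ Real.log (Real.log x) := by
    rw [e1]
    calc (j : ℝ) / 6 ≤ j * Real.log (6 / 5) := by
          have : 1 - (6 / 5 : ℝ)⁻¹ ≤ Real.log (6 / 5) := Real.one_sub_inv_le_log_of_pos (by norm_num)
          norm_num at this
          nlinarith
      _ = Real.log ((6 / 5 : ℝ) ^ j) := by rw [Real.log_pow]
      _ ≤ _ := Real.log_le_log (by positivity) h2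
  have e3 : Real.log (j / 6) ≤ Real.log (Real.log (Real.log x)) :=
    Real.log_le_log (by positivity) e2
  have h5 : ((256 * mm j : ℕ) : ℝ) ≤ ({p ∈ P | (p : ℝ) ≤ x}.ncard : ℝ) := by
    push_cast
    linarith
  have h6 : 256 * mm j ≤ {p ∈ P | (p : ℝ) ≤ x}.ncard := by exact_mod_cast h5
  obtain ⟨t, ht1, ht2⟩ := Set.exists_subset_card_eq h6
  have hpos : 0 < 256 * mm j := by
    have := mm_pos h4
    omega
  have htf : t.Finite := Set.finite_of_ncard_pos (by omega)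
  refine ⟨htf.toFinset, ?_, ?_, ?_⟩
  · intro p hp
    rw [Set.Finite.coe_toFinset] at hp
    exact (ht1 hp).1
  · rw [← Set.ncard_eq_toFinset_card t htf]
    exact ht2
  · intro p hp
    rw [Set.Finite.mem_toFinset] at hp
    exact (ht1 hp).2

/-- **Uniform smallness of the mass of small punctured balls.** -/
theorem uniform_ball {P : Set ℕ} (hP2 : ∀ p ∈ P, 2 ≤ p) (hco : P.Pairwise Nat.Coprime)
    (hP : Dense3 P) {ε : ℝ} (hε : 0 < ε) :
    ∃ r : ℝ, 0 < r ∧ ∀ μ : Measure UnitAddCircle, IsProbabilityMeasure μ →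
      (∀ p ∈ P, Inv μ p) → μ.real {x | x ≠ 0 ∧ ‖x‖ < r} ≤ ε := by
  obtain ⟨j₀, hj₀, hs⟩ := exists_sets hP
  obtain ⟨J, hJ⟩ := uniform (e := fun j => (1 / 2 : ℝ) ^ mm j) (fun j => by positivity)
    summable_e j₀ hε
  refine ⟨Real.exp (-((5 / 4 : ℝ) ^ J)), Real.exp_pos _, ?_⟩
  intro μ hμ hinv
  rw [← b_eq]
  apply hJ (b μ) (b_antitone μ) (b_nonneg μ) (b_le_one μ 0) (b_tendsto μ)
  intro j hj
  obtain ⟨s, hsP, hsc, hsm⟩ := hs j hj
  apply b_step μ (mm_pos (by omega)) s hsc (fun p hp => hP2 p (hsP hp)) (hco.mono hsP)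
    (fun p hp => hinv p (hsP hp)) (by omega)
  intro p hp
  have hp2 : (0 : ℝ) < p := by
    have := hP2 p (hsP hp)
    exact_mod_cast (by omega : 0 < p)
  rw [Real.log_le_iff_le_exp hp2]
  exact hsm p hp

end Pool.Agent.H237.Gap
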