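import Mathlib
import Pool.Agent.H237.Gap.Growth

/-!
# The relative form, joinings, and Fourier coefficients
-/

namespace Pool.Agent.H237.Gap

open MeasureTheory Set Filter Topology

lemma measurableSet_pball (r : ℝ) : MeasurableSet {x : UnitAddCircle | x ≠ 0 ∧ ‖x‖ < r} := by
  have e : {x : UnitAddCircle | x ≠ 0 ∧ ‖x‖ < r} = {0}ᶜ ∩ {x | ‖x‖ < r} := by
    ext x; simp
  rw [e]
  apply (measurableSet_singleton 0).compl.inter
  have := measurableSet_lt 1 r
  simpa using this

/-- Removing the mass at the point `0`. -/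
theorem relative_ball {P : Set ℕ} (hP2 : ∀ p ∈ P, 2 ≤ p) (hco : P.Pairwise Nat.Coprime)
    (hP : Dense3 P) {ε : ℝ} (hε : 0 < ε) :
    ∃ r : ℝ, 0 < r ∧ ∀ μ : Measure UnitAddCircle, IsProbabilityMeasure μ →
      (∀ p ∈ P, Inv μ p) → μ.real {x | x ≠ 0 ∧ ‖x‖ < r} ≤ ε * μ.real {x | x ≠ 0} := by
  obtain ⟨r, hr, h⟩ := uniform_ball hP2 hco hP hε
  refine ⟨r, hr, ?_⟩
  intro μ hμ hinv
  have hc : {x : UnitAddCircle | x ≠ 0} = {0}ᶜ := by ext x; simp
  by_cases h0 : μ ({0}ᶜ : Set UnitAddCircle) = 0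
  · have h1 : μ.real {x : UnitAddCircle | x ≠ 0 ∧ ‖x‖ < r} = 0 := by
      rw [measureReal_eq_zero_iff]
      refine measure_mono_null ?_ h0
      intro x hx
      simpa using hx.1
    rw [h1]
    positivity
  · set ν := ProbabilityTheory.cond μ ({0}ᶜ : Set UnitAddCircle) with hν
    have hνp : IsProbabilityMeasure ν := ProbabilityTheory.cond_isProbabilityMeasure h0
    have hνinv : ∀ p ∈ P, Inv ν p := by
      intro p hp
      unfold Inv
      have hmp : MeasurePreserving (fun x : UnitAddCircle => p • x) μ μ := hinv p hp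
      have h2 := hmp.restrict_preimage (measurableSet_singleton (0 : UnitAddCircle)).compl
      have h3 : μ.restrict ((fun x : UnitAddCircle => p • x) ⁻¹' {0}ᶜ) = μ.restrict {0}ᶜ := by
        apply Measure.restrict_congr_set
        rw [preimage_compl]
        apply EventuallyEq.compl
        have hsub : ({0} : Set UnitAddCircle) ⊆ (fun x : UnitAddCircle => p • x) ⁻¹' {0} := by
          intro x hx
          rw [mem_singleton_iff] at hx
          simp [hx]
        have hm : MeasurableSet ((fun x : UnitAddCircle => p • x) ⁻¹' {0}) :=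
          hmp.measurable (measurableSet_singleton _)
        exact (ae_eq_of_subset_of_measure_ge hsub
          (by rw [hmp.measure_preimage (measurableSet_singleton _).nullMeasurableSet])
          (measurableSet_singleton _).nullMeasurableSet (measure_ne_top _ _)).symm
      rw [h3] at h2
      rw [hν, ProbabilityTheory.cond]
      exact h2.smul_measure _
    have h4 := h ν hνp hνinv
    have h5 : ν.real {x : UnitAddCircle | x ≠ 0 ∧ ‖x‖ < r} =
        (μ.real {x : UnitAddCircle | x ≠ 0})⁻¹ * μ.real {x : UnitAddCircle | x ≠ 0 ∧ ‖x‖ < r} := by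
      rw [hν, Measure.real, ProbabilityTheory.cond_apply
        (measurableSet_singleton (0 : UnitAddCircle)).compl, ENNReal.toReal_mul,
        ENNReal.toReal_inv]
      congr 2
      congr 1
      ext x
      simp only [mem_inter_iff, mem_compl_iff, mem_singleton_iff, mem_ofPred_eq]
      tauto
    have hpos : 0 < μ.real {x : UnitAddCircle | x ≠ 0} := by
      rw [hc, measureReal_def]
      exact ENNReal.toReal_pos h0 (measure_ne_top _ _)
    rw [h5, inv_mul_le_iff₀ hpos] at h4
    linarith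

/-- `κ` is invariant under `(x, y) ↦ (n x, n y)`. -/
def Inv2 (κ : Measure (UnitAddCircle × UnitAddCircle)) (n : ℕ) : Prop :=
  MeasurePreserving (fun z : UnitAddCircle × UnitAddCircle => (n • z.1, n • z.2)) κ κ

/-- Joinings: two integral multiples of the coordinates are equal or apart. -/
theorem joining_ball {P : Set ℕ} (hP2 : ∀ p ∈ P, 2 ≤ p) (hco : P.Pairwise Nat.Coprime)
    (hP : Dense3 P) {ε : ℝ} (hε : 0 < ε) :
    ∃ r : ℝ, 0 < r ∧ ∀ κ : Measure (UnitAddCircle × UnitAddCircle), IsProbabilityMeasure κ →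
      (∀ p ∈ P, Inv2 κ p) → ∀ a b : ℤ,
      κ.real {z | a • z.1 ≠ b • z.2 ∧ ‖a • z.1 - b • z.2‖ < r} ≤
        ε * κ.real {z | a • z.1 ≠ b • z.2} := by
  obtain ⟨r, hr, h⟩ := relative_ball hP2 hco hP hε
  refine ⟨r, hr, ?_⟩
  intro κ hκ hinv a b
  have hm : Measurable fun z : UnitAddCircle × UnitAddCircle => a • z.1 - b • z.2 := by
    apply Continuous.measurable
    fun_prop
  set μ := κ.map fun z : UnitAddCircle × UnitAddCircle => a • z.1 - b • z.2 with hμ
  have hμp : IsProbabilityMeasure μ := Measure.isProbabilityMeasure_map hm.aemeasurable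
  have hμinv : ∀ p ∈ P, Inv μ p := by
    intro p hp
    refine ⟨by fun_prop, ?_⟩
    rw [hμ, Measure.map_map (by fun_prop) hm]
    have h1 : ((fun x : UnitAddCircle => p • x) ∘
        fun z : UnitAddCircle × UnitAddCircle => a • z.1 - b • z.2) =
        (fun z : UnitAddCircle × UnitAddCircle => a • z.1 - b • z.2) ∘
          fun z : UnitAddCircle × UnitAddCircle => (p • z.1, p • z.2) := by
      ext z
      simp only [Function.comp_apply, smul_sub]
      rw [smul_comm p a, smul_comm p b]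
    rw [h1, ← Measure.map_map hm (hinv p hp).measurable, (hinv p hp).map_eq]
  have h2 := h μ hμp hμinv
  have e1 : μ.real {x : UnitAddCircle | x ≠ 0 ∧ ‖x‖ < r} =
      κ.real {z | a • z.1 ≠ b • z.2 ∧ ‖a • z.1 - b • z.2‖ < r} := by
    rw [hμ, map_measureReal_apply hm (measurableSet_pball r)]
    congr 1
    ext z
    simp [sub_eq_zero]
  have e2 : μ.real {x : UnitAddCircle | x ≠ 0} = κ.real {z | a • z.1 ≠ b • z.2} := by
    rw [hμ, map_measureReal_apply hm (by
      have hc : {x : UnitAddCircle | x ≠ 0} = {0}ᶜ := by ext x; simp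
      rw [hc]
      exact (measurableSet_singleton _).compl)]
    congr 1
    ext z
    simp [sub_eq_zero]
  rw [e1, e2] at h2
  exact h2

lemma one_sub_re (x : UnitAddCircle) : 8 * ‖x‖ ^ 2 ≤ 1 - (fourier 1 x : ℂ).re := by
  obtain ⟨t, rfl⟩ := QuotientAddGroup.mk_surjective x
  change 8 * ‖((t : ℝ) : UnitAddCircle)‖ ^ 2 ≤ 1 - (fourier 1 ((t : ℝ) : UnitAddCircle) : ℂ).re
  have e0 : ((t : ℝ) : UnitAddCircle) = ((t - round t : ℝ) : UnitAddCircle) := by
    rw [AddCircle.coe_sub]
    have : ((round t : ℝ) : UnitAddCircle) = 0 := by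
      rw [AddCircle.coe_eq_zero_iff]
      exact ⟨round t, by simp⟩
    rw [this, sub_zero]
  have e1 : ‖((t : ℝ) : UnitAddCircle)‖ = |t - round t| := UnitAddCircle.norm_eq
  rw [e1, e0]
  set y := t - round t with hy
  have hy2 : |y| ≤ 1 / 2 := abs_sub_round t
  have e2 : (fourier 1 ((y : ℝ) : UnitAddCircle) : ℂ).re = Real.cos (2 * (Real.pi * y)) := by
    rw [fourier_coe_apply]
    have : (2 * (Real.pi : ℂ) * Complex.I * ((1 : ℤ) : ℂ) * (y : ℂ) / ((1 : ℝ) : ℂ)) =
        ((2 * (Real.pi * y) : ℝ) : ℂ) * Complex.I := by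
      push_cast; ring
    rw [this, Complex.exp_ofReal_mul_I_re]
  rw [e2, Real.cos_two_mul, sq_abs]
  have h1 : |Real.pi * y| ≤ Real.pi / 2 := by
    rw [abs_mul, abs_of_pos Real.pi_pos]
    have := Real.pi_pos
    nlinarith
  have h2 := Real.mul_abs_le_abs_sin h1
  rw [abs_mul, abs_of_pos Real.pi_pos] at h2
  have h3 : 2 * |y| ≤ |Real.sin (Real.pi * y)| := by
    calc 2 * |y| = 2 / Real.pi * (Real.pi * |y|) := by
          have := Real.pi_pos.ne'
          field_simp
      _ ≤ _ := h2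
  have h4 : (2 * |y|) ^ 2 ≤ Real.sin (Real.pi * y) ^ 2 := by
    rw [← sq_abs (Real.sin (Real.pi * y))]
    exact pow_le_pow_left₀ (by positivity) h3 2
  rw [mul_pow, sq_abs] at h4
  have h5 := Real.sin_sq_add_cos_sq (Real.pi * y)
  nlinarith

lemma fourier_sub (a b : ℤ) (z : UnitAddCircle × UnitAddCircle) :
    (fourier 1 (a • z.1 - b • z.2) : ℂ) = fourier a z.1 * (starRingEnd ℂ) (fourier b z.2) := by
  rw [← fourier_neg, sub_eq_add_neg]
  simp only [fourier_apply, one_smul, AddCircle.toCircle_add, neg_smul]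
  push_cast
  rfl

/-- Joinings: the Fourier form. -/
theorem joining_fourier {P : Set ℕ} (hP2 : ∀ p ∈ P, 2 ≤ p) (hco : P.Pairwise Nat.Coprime)
    (hP : Dense3 P) :
    ∃ c : ℝ, 0 < c ∧ ∀ κ : Measure (UnitAddCircle × UnitAddCircle), IsProbabilityMeasure κ →
      (∀ p ∈ P, Inv2 κ p) → ∀ a b : ℤ,
      c * κ.real {z | a • z.1 ≠ b • z.2} ≤
        1 - (∫ z, (fourier a z.1 : ℂ) * (starRingEnd ℂ) (fourier b z.2) ∂κ).re := by
  obtain ⟨r, hr, h⟩ := joining_ball hP2 hco hP (show (0 : ℝ) < 1 / 2 by norm_num)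
  refine ⟨4 * r ^ 2, by positivity, ?_⟩
  intro κ hκ hinv a b
  have h1 := h κ hκ hinv a b
  set Φ : UnitAddCircle × UnitAddCircle → UnitAddCircle := fun z => a • z.1 - b • z.2 with hΦ
  have hΦc : Continuous Φ := by fun_prop
  have hm : Measurable Φ := hΦc.measurable
  have hint : Integrable (fun z => (fourier 1 (Φ z) : ℂ)) κ := by
    refine (BoundedContinuousFunction.mkOfCompact
      ⟨fun z => (fourier 1 (Φ z) : ℂ), by fun_prop⟩).integrable κ
  have e1 : (∫ z, (fourier a z.1 : ℂ) * (starRingEnd ℂ) (fourier b z.2) ∂κ).re =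
      ∫ z, ((fourier 1 (Φ z) : ℂ)).re ∂κ := by
    have : (∫ z, (fourier a z.1 : ℂ) * (starRingEnd ℂ) (fourier b z.2) ∂κ) =
        ∫ z, (fourier 1 (Φ z) : ℂ) ∂κ := by
      apply integral_congr_ae
      filter_upwards with z
      exact (fourier_sub a b z).symm
    rw [this]
    exact (integral_re hint).symm
  rw [e1]
  have hS : MeasurableSet {z | r ≤ ‖Φ z‖} :=
    measurableSet_le measurable_const (hΦc.norm.measurable)
  have h2 : (8 * r ^ 2) * κ.real {z | r ≤ ‖Φ z‖} ≤ ∫ z, (1 - ((fourier 1 (Φ z) : ℂ)).re) ∂κ := by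
    have hint2 : Integrable (fun z => 1 - ((fourier 1 (Φ z) : ℂ)).re) κ :=
      (integrable_const _).sub hint.re
    calc (8 * r ^ 2) * κ.real {z | r ≤ ‖Φ z‖} =
        ∫ z, Set.indicator {z | r ≤ ‖Φ z‖} (fun _ => 8 * r ^ 2) z ∂κ := by
          rw [integral_indicator_const _ hS, smul_eq_mul, mul_comm]
      _ ≤ _ := by
          apply integral_mono _ hint2
          · intro z
            by_cases hz : z ∈ {z | r ≤ ‖Φ z‖}
            · rw [indicator_of_mem hz]
              have h3 := one_sub_re (Φ z)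
              have h4 : r ^ 2 ≤ ‖Φ z‖ ^ 2 := pow_le_pow_left₀ hr.le hz 2
              simp only
              linarith
            · rw [indicator_of_notMem hz]
              have h3 := one_sub_re (Φ z)
              have h4 : 0 ≤ ‖Φ z‖ ^ 2 := by positivity
              simp only
              linarith
          · exact (integrable_const _).indicator hS
  have h3 : ∫ z, (1 - ((fourier 1 (Φ z) : ℂ)).re) ∂κ = 1 - ∫ z, ((fourier 1 (Φ z) : ℂ)).re ∂κ := by
    have hre : Integrable (fun z => ((fourier 1 (Φ z) : ℂ)).re) κ := hint.re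
    rw [integral_sub (integrable_const _) hre]
    simp
  rw [h3] at h2
  have h4 : κ.real {z | a • z.1 ≠ b • z.2} ≤
      κ.real {z | a • z.1 ≠ b • z.2 ∧ ‖a • z.1 - b • z.2‖ < r} + κ.real {z | r ≤ ‖Φ z‖} := by
    refine le_trans (measureReal_mono ?_ (measure_ne_top _ _)) (measureReal_union_le _ _)
    intro z hz
    rcases lt_or_ge ‖Φ z‖ r with h5 | h5
    · exact Or.inl ⟨hz, h5⟩
    · exact Or.inr h5
  nlinarith [sq_nonneg r]

end Pool.Agent.H237.Gap
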