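import Mathlib
import Pool.Agent.H237.Gap.Rel
import Pool.Graph.R_seed8.R477.XQ.Furst

/-!
# Weak limits, full support and compactness
-/

namespace Pool.Agent.H237.Gap

open MeasureTheory Set Filter Topology

lemma irrational_of_coprime {p q : ℕ} (hp : 2 ≤ p) (hq : 2 ≤ q) (h : Nat.Coprime p q) :
    Irrational (Real.log p / Real.log q) := by
  have hpR : (1 : ℝ) < p := by exact_mod_cast (by omega : 1 < p)
  have hqR : (1 : ℝ) < q := by exact_mod_cast (by omega : 1 < q)
  have lp : 0 < Real.log p := Real.log_pos hpR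
  have lq : 0 < Real.log q := Real.log_pos hqR
  rintro ⟨r, hr⟩
  have hrpos : (0 : ℝ) < r := by rw [hr]; positivity
  have hrpos' : 0 < r := by exact_mod_cast hrpos
  have hnum : 0 < r.num := Rat.num_pos.mpr hrpos'
  obtain ⟨n, hn⟩ : ∃ n : ℕ, r.num = n := ⟨r.num.toNat, by omega⟩
  have hn0 : 0 < n := by omega
  have e1 : (r : ℝ) = n / r.den := by
    have := Rat.num_div_den r
    rw [hn] at this
    conv_lhs => rw [← this]
    push_cast
    rfl
  rw [e1, eq_div_iff lq.ne', div_mul_eq_mul_div, div_eq_iff (by exact_mod_cast r.den_pos.ne')] at hr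
  have e2 : Real.log ((q : ℝ) ^ n) = Real.log ((p : ℝ) ^ r.den) := by
    rw [Real.log_pow, Real.log_pow, hr, mul_comm]
  have e3 : (q : ℝ) ^ n = (p : ℝ) ^ r.den :=
    Real.log_injOn_pos (by simp only [mem_Ioi]; positivity) (by simp only [mem_Ioi]; positivity) e2
  have e4 : q ^ n = p ^ r.den := by exact_mod_cast e3
  have e5 : Nat.Coprime (p ^ r.den) (q ^ n) := Nat.Coprime.pow _ _ h
  rw [e4, Nat.coprime_self] at e5
  have := Nat.one_lt_pow r.den_pos.ne' (show 1 < p by omega)
  omega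

lemma full_support {p q : ℕ} (hp : 2 ≤ p) (hq : 2 ≤ q)
    (hirr : Irrational (Real.log p / Real.log q)) {μ : Measure UnitAddCircle}
    [IsProbabilityMeasure μ] (hat : ∀ x, μ {x} = 0) (h1 : Inv μ p) (h2 : Inv μ q)
    {U : Set UnitAddCircle} (hU : IsOpen U) (hUne : U.Nonempty) : 0 < μ U := by
  have hinv : ∀ n : ℕ, Inv μ n → ∀ x ∈ μ.support, n • x ∈ μ.support := by
    intro n hn x hx
    rw [Measure.support_eq_forall_isOpen] at *
    intro V hV hVo
    rw [← hn.measure_preimage hVo.measurableSet.nullMeasurableSet]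
    apply hx
    · exact hV
    · exact hVo.preimage (by fun_prop)
  have hinf : μ.support.Infinite := by
    intro hfin
    have h0 : μ μ.support = 0 := by
      rw [← biUnion_of_singleton μ.support]
      exact (measure_biUnion_null_iff hfin.countable).mpr fun x _ => hat x
    have h3 : μ μ.supportᶜ = 0 := Measure.measure_compl_support
    have h4 : μ univ = 0 := by
      rw [← union_compl_self μ.support]
      exact measure_union_null h0 h3
    simp at h4
  have := Pool.Agent.R477.XQ.furst hp hq hirr Measure.isClosed_support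
    (fun x hx => ⟨hinv p h1 x hx, hinv q h2 x hx⟩) hinf
  obtain ⟨x, hx⟩ := hUne
  have hx' : x ∈ μ.support := by rw [this]; trivial
  rw [Measure.support_eq_forall_isOpen] at hx'
  exact hx' U hx hU

lemma atom_finite_order {p : ℕ} (hp : 2 ≤ p) {μ : Measure UnitAddCircle}
    [IsProbabilityMeasure μ] (h1 : Inv μ p) {z : UnitAddCircle} (hz : μ {z} ≠ 0) :
    ∃ N : ℕ, 1 ≤ N ∧ N • z = 0 := by
  by_contra hcon
  push Not at hcon
  have hinj : Function.Injective fun k : ℕ => p ^ k • z := by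
    intro k l hkl
    by_contra hne
    wlog hlt : k < l generalizing k l with H
    · exact H hkl.symm (Ne.symm hne) (by omega)
    have hpow : p ^ k < p ^ l := Nat.pow_lt_pow_right (by omega) hlt
    refine hcon (p ^ l - p ^ k) (by omega) ?_
    have e : p ^ l • z = (p ^ l - p ^ k) • z + p ^ k • z := by
      rw [← add_smul]
      congr 1
      omega
    simp only at hkl
    rw [hkl] at e
    simpa using e.symm
  have hge : ∀ k : ℕ, μ {z} ≤ μ {p ^ k • z} := by
    intro k
    have hk := h1.pow k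
    calc μ {z} ≤ μ ((fun x : UnitAddCircle => p ^ k • x) ⁻¹' {p ^ k • z}) := by
          apply measure_mono
          intro x hx
          rw [mem_singleton_iff] at hx
          simp [hx]
      _ = μ {p ^ k • z} := hk.measure_preimage (measurableSet_singleton _).nullMeasurableSet
  have h3 : ∑' k : ℕ, μ {p ^ k • z} ≤ 1 := by
    rw [← measure_iUnion]
    · exact prob_le_one
    · intro k l hkl
      rw [Function.onFun, Set.disjoint_singleton]
      exact fun h => hkl (hinj h)
    · intro k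
      exact measurableSet_singleton _
  have h4 : ∑' _ : ℕ, μ {z} ≤ ∑' k : ℕ, μ {p ^ k • z} := ENNReal.tsum_le_tsum hge
  rw [ENNReal.tsum_const_eq_top_of_ne_zero hz] at h4
  exact absurd (le_trans h4 h3) (by simp)

lemma limit_inv {ι : Type*} {L : Filter ι} [L.NeBot] {ν : ι → ProbabilityMeasure UnitAddCircle}
    {μ : ProbabilityMeasure UnitAddCircle} (h : Tendsto ν L (𝓝 μ)) {p : ℕ}
    (hν : ∀ᶠ i in L, Inv (ν i : Measure UnitAddCircle) p) :
    Inv (μ : Measure UnitAddCircle) p := by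
  have hc : Continuous fun x : UnitAddCircle => p • x := by fun_prop
  have h1 := ProbabilityMeasure.tendsto_map_of_tendsto_of_continuous ν μ h hc
  have h2 : Tendsto ν L (𝓝 (μ.map hc.measurable.aemeasurable)) := by
    refine h1.congr' ?_
    filter_upwards [hν] with i hi
    apply Subtype.ext
    exact hi.map_eq
  have h3 := tendsto_nhds_unique h h2
  refine ⟨hc.measurable, ?_⟩
  have h4 : ((μ.map hc.measurable.aemeasurable : ProbabilityMeasure UnitAddCircle) :
      Measure UnitAddCircle) = (μ : Measure UnitAddCircle) := by rw [← h3]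
  exact h4

/-- No mass on the points of order at most `Q`. -/
def NoSmall (μ : Measure UnitAddCircle) (Q : ℕ) : Prop :=
  μ {x | ∃ m : ℕ, 1 ≤ m ∧ m ≤ Q ∧ m • x = 0} = 0

lemma torsion_finite (m : ℕ) (hm : 1 ≤ m) : {x : UnitAddCircle | m • x = 0}.Finite := by
  have h1 : {x : UnitAddCircle | m • x = 0} ⊆
      (fun k : ℕ => (((k : ℝ) / m : ℝ) : UnitAddCircle)) '' (Finset.range (m + 1)) := by
    intro x hx
    obtain ⟨t, rfl⟩ := QuotientAddGroup.mk_surjective x
    have hm0 : (0 : ℝ) < m := by exact_mod_cast hm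
    have hx' : ((m * Int.fract t : ℝ) : UnitAddCircle) = 0 := by
      have e1 : m • ((t : ℝ) : UnitAddCircle) = 0 := hx
      have e2 : ((t : ℝ) : UnitAddCircle) = ((Int.fract t : ℝ) : UnitAddCircle) := by
        rw [Int.fract, AddCircle.coe_sub]
        have : ((⌊t⌋ : ℝ) : UnitAddCircle) = 0 := by
          rw [AddCircle.coe_eq_zero_iff]
          exact ⟨⌊t⌋, by simp⟩
        rw [this, sub_zero]
      rw [e2, ← AddCircle.coe_nsmul, nsmul_eq_mul] at e1
      exact e1
    rw [AddCircle.coe_eq_zero_iff] at hx'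
    obtain ⟨n, hn⟩ := hx'
    simp only [zsmul_eq_mul, mul_one] at hn
    have hn0 : 0 ≤ n := by
      have : (0 : ℝ) ≤ n := by rw [hn]; exact mul_nonneg hm0.le (Int.fract_nonneg t)
      exact_mod_cast this
    have hn1 : n ≤ m := by
      have : (n : ℝ) ≤ m := by
        rw [hn]
        have := (Int.fract_lt_one t).le
        nlinarith
      exact_mod_cast this
    refine ⟨n.toNat, ?_, ?_⟩
    · simp only [Finset.coe_range, mem_Iio]
      omega
    · have e3 : ((n.toNat : ℕ) : ℝ) = (n : ℝ) := by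
        exact_mod_cast Int.toNat_of_nonneg hn0
      simp only
      rw [e3, hn, mul_div_cancel_left₀ _ hm0.ne']
      have e2 : ((t : ℝ) : UnitAddCircle) = ((Int.fract t : ℝ) : UnitAddCircle) := by
        rw [Int.fract, AddCircle.coe_sub]
        have : ((⌊t⌋ : ℝ) : UnitAddCircle) = 0 := by
          rw [AddCircle.coe_eq_zero_iff]
          exact ⟨⌊t⌋, by simp⟩
        rw [this, sub_zero]
      exact e2.symm
  exact (Set.Finite.image _ (Finset.finite_toSet _)).subset h1

lemma small_finite (Q : ℕ) : {x : UnitAddCircle | ∃ m : ℕ, 1 ≤ m ∧ m ≤ Q ∧ m • x = 0}.Finite := by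
  have : {x : UnitAddCircle | ∃ m : ℕ, 1 ≤ m ∧ m ≤ Q ∧ m • x = 0} ⊆
      ⋃ m ∈ Finset.Icc 1 Q, {x : UnitAddCircle | m • x = 0} := by
    rintro x ⟨m, h1, h2, h3⟩
    simp only [mem_iUnion]
    exact ⟨m, Finset.mem_Icc.mpr ⟨h1, h2⟩, h3⟩
  refine Set.Finite.subset ?_ this
  apply Set.Finite.biUnion (Finset.finite_toSet _)
  intro m hm
  exact torsion_finite m (Finset.mem_Icc.mp hm).1

lemma noSmall_of_atomless {μ : Measure UnitAddCircle} (hat : ∀ x, μ {x} = 0) (Q : ℕ) :
    NoSmall μ Q := by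
  unfold NoSmall
  rw [← biUnion_of_singleton {x : UnitAddCircle | ∃ m : ℕ, 1 ≤ m ∧ m ≤ Q ∧ m • x = 0}]
  exact (measure_biUnion_null_iff (small_finite Q).countable).mpr fun x _ => hat x

lemma noSmall_mono {μ : Measure UnitAddCircle} {Q Q' : ℕ} (h : Q ≤ Q') (hQ : NoSmall μ Q') :
    NoSmall μ Q := by
  refine measure_mono_null ?_ hQ
  rintro x ⟨m, h1, h2, h3⟩
  exact ⟨m, h1, h2.trans h, h3⟩

/-- The uniform bound for the ball about the points of order dividing `N`. -/
lemma ball_nsmul {P : Set ℕ} {ε r : ℝ}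
    (h : ∀ μ : Measure UnitAddCircle, IsProbabilityMeasure μ →
      (∀ p ∈ P, Inv μ p) → μ.real {x | x ≠ 0 ∧ ‖x‖ < r} ≤ ε)
    {μ : Measure UnitAddCircle} [IsProbabilityMeasure μ] (hinv : ∀ p ∈ P, Inv μ p) (N : ℕ) :
    μ.real {x | N • x ≠ 0 ∧ ‖N • x‖ < r} ≤ ε := by
  have hm : Measurable fun x : UnitAddCircle => N • x := by fun_prop
  have hp : IsProbabilityMeasure (μ.map fun x : UnitAddCircle => N • x) :=
    Measure.isProbabilityMeasure_map hm.aemeasurable
  have h1 := h (μ.map fun x : UnitAddCircle => N • x) hp (by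
    intro p hp
    refine ⟨by fun_prop, ?_⟩
    rw [Measure.map_map (by fun_prop) hm]
    have h1 : ((fun x : UnitAddCircle => p • x) ∘ fun x : UnitAddCircle => N • x) =
        (fun x : UnitAddCircle => N • x) ∘ fun x : UnitAddCircle => p • x := by
      ext x
      simp only [Function.comp_apply]
      rw [smul_comm]
    rw [h1, ← Measure.map_map hm (hinv p hp).measurable, (hinv p hp).map_eq])
  rw [map_measureReal_apply hm (measurableSet_pball r)] at h1
  exact h1

/-- Weak limits of invariant measures without mass at points of small order are atomless. -/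
lemma limit_atomless {P : Set ℕ} (hP2 : ∀ p ∈ P, 2 ≤ p) (hco : P.Pairwise Nat.Coprime)
    (hP : Dense3 P) (hne : P.Nonempty) {ι : Type*} {L : Filter ι} [L.NeBot]
    {ν : ι → ProbabilityMeasure UnitAddCircle} {μ : ProbabilityMeasure UnitAddCircle}
    (h : Tendsto ν L (𝓝 μ)) (hν : ∀ᶠ i in L, ∀ p ∈ P, Inv (ν i : Measure UnitAddCircle) p)
    (hsm : ∀ Q : ℕ, ∀ᶠ i in L, NoSmall (ν i : Measure UnitAddCircle) Q) :
    ∀ x, (μ : Measure UnitAddCircle) {x} = 0 := by
  obtain ⟨p, hp⟩ := hne
  have hμp : Inv (μ : Measure UnitAddCircle) p :=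
    limit_inv h (hν.mono fun i hi => hi p hp)
  intro z
  by_contra hz
  obtain ⟨N, hN1, hN2⟩ := atom_finite_order (hP2 p hp) hμp hz
  have key : ∀ ε : ℝ, 0 < ε → (μ : Measure UnitAddCircle) {z} ≤ ENNReal.ofReal ε := by
    intro ε hε
    obtain ⟨r, hr, hr'⟩ := uniform_ball hP2 hco hP hε
    have hopen : IsOpen {x : UnitAddCircle | ‖N • x‖ < r} :=
      isOpen_lt (by fun_prop) continuous_const
    have h1 := ProbabilityMeasure.le_liminf_measure_open_of_tendsto h hopen
    have h2 : ∀ᶠ i in L, (ν i : Measure UnitAddCircle) {x : UnitAddCircle | ‖N • x‖ < r} ≤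
        ENNReal.ofReal ε := by
      filter_upwards [hν, hsm N] with i hi hi'
      have h3 := ball_nsmul hr' hi N
      have h4 : (ν i : Measure UnitAddCircle) {x : UnitAddCircle | ‖N • x‖ < r} ≤
          (ν i : Measure UnitAddCircle) {x : UnitAddCircle | N • x ≠ 0 ∧ ‖N • x‖ < r} := by
        have hsub : {x : UnitAddCircle | ‖N • x‖ < r} ⊆
            {x : UnitAddCircle | N • x ≠ 0 ∧ ‖N • x‖ < r} ∪
              {x | ∃ m : ℕ, 1 ≤ m ∧ m ≤ N ∧ m • x = 0} := by
          intro x hx
          by_cases h0 : N • x = 0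
          · exact Or.inr ⟨N, hN1, le_rfl, h0⟩
          · exact Or.inl ⟨h0, hx⟩
        refine le_trans (measure_mono hsub) (le_trans (measure_union_le _ _) ?_)
        rw [hi', add_zero]
      refine le_trans h4 ?_
      rw [← ENNReal.ofReal_toReal (measure_ne_top (ν i : Measure UnitAddCircle) _)]
      exact ENNReal.ofReal_le_ofReal h3
    have h5 : L.liminf (fun i => (ν i : Measure UnitAddCircle) {x : UnitAddCircle | ‖N • x‖ < r}) ≤
        ENNReal.ofReal ε :=
      liminf_le_of_frequently_le' h2.frequently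
    refine le_trans (measure_mono ?_) (le_trans h1 h5)
    intro x hx
    rw [mem_singleton_iff] at hx
    simp only [mem_ofPred_eq]
    rw [hx, hN2, norm_zero]
    exact hr
  apply hz
  have h6 : ∀ ε : NNReal, 0 < ε → (μ : Measure UnitAddCircle) {z} ≤ 0 + ε := by
    intro ε hε
    have := key ε (by exact_mod_cast hε)
    simpa using this
  exact le_antisymm (ENNReal.le_of_forall_pos_le_add fun ε hε _ => h6 ε hε) bot_le

lemma dense3_infinite {P : Set ℕ} (hP : Dense3 P) : P.Infinite := by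
  intro hfin
  have h1 : Tendsto (fun x : ℝ => 1000 * Real.log (Real.log (Real.log x))) atTop atTop :=
    Tendsto.const_mul_atTop (by norm_num)
      (Real.tendsto_log_atTop.comp (Real.tendsto_log_atTop.comp Real.tendsto_log_atTop))
  have h2 := (h1.eventually (eventually_gt_atTop (P.ncard : ℝ))).and hP
  obtain ⟨x, hx1, hx2⟩ := h2.exists
  have h3 : ({p ∈ P | (p : ℝ) ≤ x}.ncard : ℝ) ≤ P.ncard := by
    exact_mod_cast Set.ncard_le_ncard (show {p ∈ P | (p : ℝ) ≤ x} ⊆ P from fun p hp => hp.1) hfin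
  linarith

lemma exists_pair {P : Set ℕ} (hP : Dense3 P) : ∃ p ∈ P, ∃ q ∈ P, p ≠ q := by
  have := (dense3_infinite hP).nontrivial
  obtain ⟨p, hp, q, hq, hne⟩ := this
  exact ⟨p, hp, q, hq, hne⟩

/-- Compactness of the set of the atomless invariant measures. -/
theorem compact_atomless {P : Set ℕ} (hP2 : ∀ p ∈ P, 2 ≤ p) (hco : P.Pairwise Nat.Coprime)
    (hP : Dense3 P) :
    IsCompact {μ : ProbabilityMeasure UnitAddCircle |
      (∀ p ∈ P, Inv (μ : Measure UnitAddCircle) p) ∧ ∀ x, (μ : Measure UnitAddCircle) {x} = 0} := by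
  apply IsClosed.isCompact
  rw [isClosed_iff_ultrafilter]
  intro μ u hu hs
  have ht : Tendsto (id : ProbabilityMeasure UnitAddCircle → _) (u : Filter _) (𝓝 μ) := hu
  have hs' : ∀ᶠ ν : ProbabilityMeasure UnitAddCircle in
      (u : Filter (ProbabilityMeasure UnitAddCircle)),
      (∀ p ∈ P, Inv (ν : Measure UnitAddCircle) p) ∧ ∀ x, (ν : Measure UnitAddCircle) {x} = 0 := hs
  refine ⟨fun p hp => limit_inv ht (hs'.mono fun ν hν => hν.1 p hp), ?_⟩
  exact limit_atomless hP2 hco hP (dense3_infinite hP).nonempty ht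
    (hs'.mono fun ν hν => hν.1) fun Q => hs'.mono fun ν hν => noSmall_of_atomless hν.2 Q

/-- Along a sequence of invariant measures without mass at the points of order at most `n`. -/
lemma exists_limit {P : Set ℕ} (hP2 : ∀ p ∈ P, 2 ≤ p) (hco : P.Pairwise Nat.Coprime)
    (hP : Dense3 P) (ν : ℕ → ProbabilityMeasure UnitAddCircle)
    (hν : ∀ n, ∀ p ∈ P, Inv (ν n : Measure UnitAddCircle) p)
    (hsm : ∀ n, NoSmall (ν n : Measure UnitAddCircle) n) :
    ∃ (L : Filter ℕ) (μ : ProbabilityMeasure UnitAddCircle), L.NeBot ∧ L ≤ atTop ∧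
      Tendsto ν L (𝓝 μ) ∧ (∀ p ∈ P, Inv (μ : Measure UnitAddCircle) p) ∧
      ∀ x, (μ : Measure UnitAddCircle) {x} = 0 := by
  set L := Filter.hyperfilter ℕ with hL
  have hLt : (L : Filter ℕ) ≤ atTop := Nat.hyperfilter_le_atTop
  obtain ⟨μ, -, hμ⟩ := isCompact_univ.ultrafilter_le_nhds (L.map ν) (by simp)
  have ht : Tendsto ν (L : Filter ℕ) (𝓝 μ) := hμ
  refine ⟨L, μ, inferInstance, hLt, ht,
    fun p hp => limit_inv ht (Eventually.of_forall fun n => hν n p hp), ?_⟩
  apply limit_atomless hP2 hco hP (dense3_infinite hP).nonempty ht (Eventually.of_forall hν)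
  intro Q
  have : ∀ᶠ n in (L : Filter ℕ), Q ≤ n := hLt (eventually_ge_atTop Q)
  filter_upwards [this] with n hn
  exact noSmall_mono hn (hsm n)

/-- Uniform positive mass of open sets. -/
theorem uniform_open {P : Set ℕ} (hP2 : ∀ p ∈ P, 2 ≤ p) (hco : P.Pairwise Nat.Coprime)
    (hP : Dense3 P) {U : Set UnitAddCircle} (hU : IsOpen U) (hUne : U.Nonempty) :
    ∃ c : ℝ, 0 < c ∧ ∃ Q : ℕ, ∀ μ : Measure UnitAddCircle, IsProbabilityMeasure μ →
      (∀ p ∈ P, Inv μ p) → NoSmall μ Q → c ≤ μ.real U := by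
  by_contra hcon
  push Not at hcon
  have hex : ∀ n : ℕ, ∃ μ : ProbabilityMeasure UnitAddCircle,
      (∀ p ∈ P, Inv (μ : Measure UnitAddCircle) p) ∧ NoSmall (μ : Measure UnitAddCircle) n ∧
        (μ : Measure UnitAddCircle).real U < 1 / ((n : ℝ) + 1) := by
    intro n
    obtain ⟨μ, h1, h2, h3, h4⟩ := hcon (1 / ((n : ℝ) + 1)) (by positivity) n
    exact ⟨⟨μ, h1⟩, h2, h3, h4⟩
  choose ν hν1 hν2 hν3 using hex
  obtain ⟨L, μ, hLne, hLt, ht, hinv, hat⟩ := exists_limit hP2 hco hP ν hν1 hν2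
  obtain ⟨p, hp, q, hq, hpq⟩ := exists_pair hP
  have hpos := full_support (hP2 p hp) (hP2 q hq)
    (irrational_of_coprime (hP2 p hp) (hP2 q hq) (hco hp hq hpq)) hat (hinv p hp) (hinv q hq)
    hU hUne
  have h1 := ProbabilityMeasure.le_liminf_measure_open_of_tendsto ht hU
  have h2 : Tendsto (fun n => (ν n : Measure UnitAddCircle) U) L (𝓝 0) := by
    have h3 : Tendsto (fun n : ℕ => ENNReal.ofReal (1 / ((n : ℝ) + 1))) L (𝓝 0) := by
      have := ENNReal.tendsto_ofReal (tendsto_one_div_add_atTop_nhds_zero_nat (𝕜 := ℝ))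
      rw [ENNReal.ofReal_zero] at this
      exact this.mono_left hLt
    refine tendsto_of_tendsto_of_tendsto_of_le_of_le tendsto_const_nhds h3 (fun n => bot_le) ?_
    intro n
    simp only
    rw [← ENNReal.ofReal_toReal (measure_ne_top (ν n : Measure UnitAddCircle) U)]
    exact ENNReal.ofReal_le_ofReal (hν3 n).le
  rw [h2.liminf_eq] at h1
  exact absurd (le_antisymm h1 bot_le) hpos.ne'

/-- Rigidity of the atomless measures and equidistribution of all large orbits are equivalent. -/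
theorem rigid_iff {P : Set ℕ} (hP2 : ∀ p ∈ P, 2 ≤ p) (hco : P.Pairwise Nat.Coprime)
    (hP : Dense3 P) :
    (∀ μ : Measure UnitAddCircle, IsProbabilityMeasure μ → (∀ x, μ {x} = 0) →
      (∀ p ∈ P, Inv μ p) → μ = volume) ↔
    ∀ f : C(UnitAddCircle, ℝ), ∀ ε : ℝ, 0 < ε → ∃ Q : ℕ, ∀ μ : Measure UnitAddCircle,
      IsProbabilityMeasure μ → (∀ p ∈ P, Inv μ p) → NoSmall μ Q →
        |∫ x, f x ∂μ - ∫ x, f x| ≤ ε := by
  constructor
  · intro H f ε hε
    by_contra hcon
    push Not at hcon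
    have hex : ∀ n : ℕ, ∃ μ : ProbabilityMeasure UnitAddCircle,
        (∀ p ∈ P, Inv (μ : Measure UnitAddCircle) p) ∧ NoSmall (μ : Measure UnitAddCircle) n ∧
          ε < |∫ x, f x ∂(μ : Measure UnitAddCircle) - ∫ x, f x| := by
      intro n
      obtain ⟨μ, h1, h2, h3, h4⟩ := hcon n
      exact ⟨⟨μ, h1⟩, h2, h3, h4⟩
    choose ν hν1 hν2 hν3 using hex
    obtain ⟨L, μ, hLne, hLt, ht, hinv, hat⟩ := exists_limit hP2 hco hP ν hν1 hν2
    have hvol := H (μ : Measure UnitAddCircle) inferInstance hat hinv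
    have h1 := (ProbabilityMeasure.tendsto_iff_forall_integral_tendsto.mp ht)
      (BoundedContinuousFunction.mkOfCompact f)
    rw [hvol] at h1
    simp only [BoundedContinuousFunction.mkOfCompact_apply] at h1
    have h2 : Tendsto (fun n => |∫ x, f x ∂(ν n : Measure UnitAddCircle) - ∫ x, f x|) L (𝓝 0) := by
      have h3 : Tendsto (fun n => ∫ x, f x ∂(ν n : Measure UnitAddCircle) - ∫ x, f x) L
          (𝓝 ((∫ x, f x) - ∫ x, f x)) := h1.sub_const _
      rw [sub_self] at h3
      have := h3.abs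
      simpa using this
    obtain ⟨n, hn⟩ := (h2.eventually (gt_mem_nhds hε)).exists
    exact absurd (hν3 n) (not_lt.mpr hn.le)
  · intro H μ hμ hat hinv
    apply ext_of_forall_integral_eq_of_IsFiniteMeasure
    intro f
    apply eq_of_abs_sub_le_all
    intro ε hε
    obtain ⟨Q, hQ⟩ := H f.toContinuousMap ε hε
    exact hQ μ hμ hinv (noSmall_of_atomless hat Q)

end Pool.Agent.H237.Gap
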