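import Mathlib
import Pool.Agent.H237.Gap.Compact

/-!
# Finite invariant sets, and the Fermat numbers
-/

namespace Pool.Agent.H237.Gap

open MeasureTheory Set Filter Topology ENNReal

/-- The uniform probability measure on a finite set. -/
noncomputable def unif (O : Finset UnitAddCircle) : Measure UnitAddCircle :=
  ((O.card : ℝ≥0∞)⁻¹) • ∑ y ∈ O, Measure.dirac y

lemma unif_prob {O : Finset UnitAddCircle} (hO : O.Nonempty) : IsProbabilityMeasure (unif O) := by
  refine ⟨?_⟩
  unfold unif
  rw [Measure.smul_apply, Measure.finsetSum_apply]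
  simp only [measure_univ, Finset.sum_const, nsmul_eq_mul, mul_one, smul_eq_mul]
  have h0 : (O.card : ℝ≥0∞) ≠ 0 := by
    simp only [ne_eq, Nat.cast_eq_zero]
    exact hO.card_pos.ne'
  exact ENNReal.inv_mul_cancel h0 (by simp)

lemma unif_inv {O : Finset UnitAddCircle} {p : ℕ}
    (h : O.image (fun x : UnitAddCircle => p • x) = O) : Inv (unif O) p := by
  have hm : Measurable fun x : UnitAddCircle => p • x := by fun_prop
  refine ⟨hm, ?_⟩
  have hinj : Set.InjOn (fun x : UnitAddCircle => p • x) O := by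
    apply Finset.injOn_of_card_image_eq
    rw [h]
  unfold unif
  rw [Measure.map_smul]
  congr 1
  have h1 : Measure.map (fun x : UnitAddCircle => p • x) (∑ y ∈ O, Measure.dirac y) =
      ∑ y ∈ O, Measure.dirac (p • y) := by
    ext s hs
    rw [Measure.map_apply hm hs, Measure.finsetSum_apply, Measure.finsetSum_apply]
    apply Finset.sum_congr rfl
    intro y _
    rw [Measure.dirac_apply' _ (hm hs), Measure.dirac_apply' _ hs]
    rfl
  rw [h1]
  conv_rhs => rw [← h]
  rw [Finset.sum_image hinj]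

lemma unif_real {O : Finset UnitAddCircle} (_hO : O.Nonempty) {s : Set UnitAddCircle}
    (hs : MeasurableSet s) :
    (unif O).real s = ((O : Set UnitAddCircle) ∩ s).ncard / O.card := by
  classical
  unfold unif
  rw [Measure.real, Measure.smul_apply, Measure.finsetSum_apply]
  simp only [Measure.dirac_apply' _ hs, smul_eq_mul]
  have h1 : ∑ y ∈ O, s.indicator (1 : UnitAddCircle → ℝ≥0∞) y =
      (((O : Set UnitAddCircle) ∩ s).ncard : ℝ≥0∞) := by
    have h2 : ((O : Set UnitAddCircle) ∩ s) = ((O.filter fun y => y ∈ s : Finset UnitAddCircle) :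
        Set UnitAddCircle) := by
      ext y; simp
    rw [h2, Set.ncard_coe_finset]
    simp only [indicator_apply, Pi.one_apply]
    rw [← Finset.sum_filter]
    simp
  rw [h1, ENNReal.toReal_mul, ENNReal.toReal_inv, ENNReal.toReal_natCast, ENNReal.toReal_natCast]
  rw [inv_mul_eq_div]

lemma unif_integral {O : Finset UnitAddCircle} (f : UnitAddCircle → ℂ) :
    ∫ x, f x ∂(unif O) = (O.card : ℂ)⁻¹ * ∑ y ∈ O, f y := by
  unfold unif
  rw [integral_smul_measure, integral_finsetSum_measure]
  · simp only [integral_dirac]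
    rw [ENNReal.toReal_inv, ENNReal.toReal_natCast, Complex.real_smul]
    push_cast
    rfl
  · intro y _
    exact integrable_dirac (by simp)

lemma prod_inv2 {μ ν : Measure UnitAddCircle} [IsProbabilityMeasure μ] [IsProbabilityMeasure ν]
    {p : ℕ} (h1 : Inv μ p) (h2 : Inv ν p) : Inv2 (μ.prod ν) p :=
  MeasurePreserving.prod h1 h2

lemma prod_fourier {μ : Measure UnitAddCircle} [IsProbabilityMeasure μ] (n : ℤ) :
    (∫ z, (fourier n z.1 : ℂ) * (starRingEnd ℂ) (fourier n z.2) ∂(μ.prod μ)).re =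
      ‖∫ x, (fourier n x : ℂ) ∂μ‖ ^ 2 := by
  rw [integral_prod_mul (fun x : UnitAddCircle => (fourier n x : ℂ))
    (fun x : UnitAddCircle => (starRingEnd ℂ) (fourier n x)), integral_conj, Complex.mul_conj]
  rw [Complex.ofReal_re, Complex.normSq_eq_norm_sq]

/-- The square form: the Fourier coefficients of invariant measures. -/
theorem square_form {P : Set ℕ} (hP2 : ∀ p ∈ P, 2 ≤ p) (hco : P.Pairwise Nat.Coprime)
    (hP : Dense3 P) :
    ∃ c : ℝ, 0 < c ∧ ∀ μ : Measure UnitAddCircle, IsProbabilityMeasure μ →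
      (∀ p ∈ P, Inv μ p) → ∀ n : ℤ,
      c * (μ.prod μ).real {z | n • z.1 ≠ n • z.2} ≤ 1 - ‖∫ x, (fourier n x : ℂ) ∂μ‖ ^ 2 := by
  obtain ⟨c, hc, h⟩ := joining_fourier hP2 hco hP
  refine ⟨c, hc, ?_⟩
  intro μ hμ hinv n
  have := h (μ.prod μ) inferInstance (fun p hp => prod_inv2 (hinv p hp) (hinv p hp)) n n
  rwa [prod_fourier] at this

lemma ztorsion_finite {n : ℤ} (hn : n ≠ 0) : {x : UnitAddCircle | n • x = 0}.Finite := by
  have h1 := torsion_finite n.natAbs (by omega)
  refine h1.subset ?_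
  intro x hx
  have hx' : n • x = 0 := hx
  have : n.natAbs • x = 0 := by
    rcases Int.natAbs_eq n with h | h
    · rw [h] at hx'
      simpa using hx'
    · rw [h] at hx'
      simpa using hx'
  exact this

/-- Atomless measures: all the coefficients are bounded away from one. -/
theorem atomless_gap {P : Set ℕ} (hP2 : ∀ p ∈ P, 2 ≤ p) (hco : P.Pairwise Nat.Coprime)
    (hP : Dense3 P) :
    ∃ c : ℝ, 0 < c ∧ ∀ μ : Measure UnitAddCircle, IsProbabilityMeasure μ →
      (∀ x, μ {x} = 0) → (∀ p ∈ P, Inv μ p) → ∀ n : ℤ, n ≠ 0 →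
      ‖∫ x, (fourier n x : ℂ) ∂μ‖ ^ 2 ≤ 1 - c := by
  obtain ⟨c, hc, h⟩ := square_form hP2 hco hP
  refine ⟨c, hc, ?_⟩
  intro μ hμ hat hinv n hn
  have h1 := h μ hμ hinv n
  have h2 : (μ.prod μ).real {z | n • z.1 ≠ n • z.2} = 1 := by
    have hms : MeasurableSet {z : UnitAddCircle × UnitAddCircle | n • z.1 = n • z.2} :=
      (isClosed_eq (by fun_prop) (by fun_prop)).measurableSet
    have h3 : (μ.prod μ) {z : UnitAddCircle × UnitAddCircle | n • z.1 = n • z.2} = 0 := by
      rw [Measure.prod_apply hms]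
      have : ∀ x : UnitAddCircle, μ (Prod.mk x ⁻¹' {z : UnitAddCircle × UnitAddCircle |
          n • z.1 = n • z.2}) = 0 := by
        intro x
        have hfin : (Prod.mk x ⁻¹' {z : UnitAddCircle × UnitAddCircle | n • z.1 = n • z.2}).Finite := by
          have : Prod.mk x ⁻¹' {z : UnitAddCircle × UnitAddCircle | n • z.1 = n • z.2} ⊆
              (fun y => x - y) '' {y : UnitAddCircle | n • y = 0} := by
            intro y hy
            have hy' : n • x = n • y := hy
            refine ⟨x - y, ?_, by simp⟩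
            simp [smul_sub, hy']
          exact ((ztorsion_finite hn).image _).subset this
        rw [← biUnion_of_singleton (Prod.mk x ⁻¹' {z : UnitAddCircle × UnitAddCircle |
          n • z.1 = n • z.2})]
        exact (measure_biUnion_null_iff hfin.countable).mpr fun y _ => hat y
      simp only [this, lintegral_zero]
    have h4 : {z : UnitAddCircle × UnitAddCircle | n • z.1 ≠ n • z.2} =
        {z : UnitAddCircle × UnitAddCircle | n • z.1 = n • z.2}ᶜ := by
      ext z; simp
    rw [h4, probReal_compl_eq_one_sub hms, measureReal_def, h3]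
    simp
  rw [h2] at h1
  linarith

/-- Exponential sums over finite invariant sets. -/
theorem finite_sets {P : Set ℕ} (hP2 : ∀ p ∈ P, 2 ≤ p) (hco : P.Pairwise Nat.Coprime)
    (hP : Dense3 P) :
    ∃ c : ℝ, 0 < c ∧ ∀ O : Finset UnitAddCircle, 2 ≤ O.card →
      (∀ p ∈ P, O.image (fun x : UnitAddCircle => p • x) = O) →
      ‖∑ y ∈ O, (fourier 1 y : ℂ)‖ ≤ (1 - c) * O.card := by
  obtain ⟨c, hc, h⟩ := square_form hP2 hco hP
  refine ⟨c / 4, by positivity, ?_⟩
  intro O hO hinv
  have hne : O.Nonempty := Finset.card_pos.mp (by omega)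
  have hprob := unif_prob hne
  have h1 := h (unif O) hprob (fun p hp => unif_inv (hinv p hp)) 1
  rw [unif_integral] at h1
  have hcR : (2 : ℝ) ≤ O.card := by exact_mod_cast hO
  have hpos : (0 : ℝ) < O.card := by linarith
  have h2 : 1 / 2 ≤ ((unif O).prod (unif O)).real {z | (1 : ℤ) • z.1 ≠ (1 : ℤ) • z.2} := by
    have hms : MeasurableSet {z : UnitAddCircle × UnitAddCircle | z.1 = z.2} :=
      (isClosed_eq (by fun_prop) (by fun_prop)).measurableSet
    have h4 : {z : UnitAddCircle × UnitAddCircle | (1 : ℤ) • z.1 ≠ (1 : ℤ) • z.2} =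
        {z : UnitAddCircle × UnitAddCircle | z.1 = z.2}ᶜ := by
      ext z; simp
    rw [h4, probReal_compl_eq_one_sub hms]
    have h5 : ((unif O).prod (unif O)).real {z : UnitAddCircle × UnitAddCircle | z.1 = z.2} ≤
        1 / 2 := by
      rw [measureReal_def, Measure.prod_apply hms]
      have h6 : ∀ x : UnitAddCircle, (unif O) (Prod.mk x ⁻¹' {z : UnitAddCircle × UnitAddCircle |
          z.1 = z.2}) ≤ ENNReal.ofReal (1 / 2) := by
        intro x
        have e1 : Prod.mk x ⁻¹' {z : UnitAddCircle × UnitAddCircle | z.1 = z.2} = {x} := by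
          ext y
          simp only [mem_preimage, mem_ofPred_eq, mem_singleton_iff]
          exact eq_comm
        rw [e1, ← ENNReal.ofReal_toReal (measure_ne_top (unif O) {x})]
        apply ENNReal.ofReal_le_ofReal
        have := unif_real hne (measurableSet_singleton x)
        rw [measureReal_def] at this
        rw [this, div_le_iff₀ hpos]
        have h7 : (((O : Set UnitAddCircle) ∩ {x}).ncard : ℝ) ≤ 1 := by
          have : ((O : Set UnitAddCircle) ∩ {x}).ncard ≤ ({x} : Set UnitAddCircle).ncard :=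
            Set.ncard_le_ncard inter_subset_right (Set.finite_singleton x)
          rw [Set.ncard_singleton] at this
          exact_mod_cast this
        linarith
      have h8 : ∫⁻ x, (unif O) (Prod.mk x ⁻¹' {z : UnitAddCircle × UnitAddCircle |
          z.1 = z.2}) ∂(unif O) ≤ ENNReal.ofReal (1 / 2) := by
        calc ∫⁻ x, (unif O) (Prod.mk x ⁻¹' {z : UnitAddCircle × UnitAddCircle |
          z.1 = z.2}) ∂(unif O) ≤ ∫⁻ _, ENNReal.ofReal (1 / 2) ∂(unif O) :=
              lintegral_mono h6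
          _ = ENNReal.ofReal (1 / 2) := by simp
      calc _ ≤ (ENNReal.ofReal (1 / 2)).toReal := ENNReal.toReal_mono ENNReal.ofReal_ne_top h8
        _ = 1 / 2 := ENNReal.toReal_ofReal (by norm_num)
    linarith
  set S := ∑ y ∈ O, (fourier 1 y : ℂ) with hS
  have h3 : ‖(O.card : ℂ)⁻¹ * S‖ = ‖S‖ / O.card := by
    rw [norm_mul, norm_inv, Complex.norm_natCast, inv_mul_eq_div]
  rw [h3] at h1
  have h4 : (‖S‖ / O.card) ^ 2 ≤ 1 - c / 2 := by nlinarith
  have h5 : 0 ≤ 1 - c / 2 := le_trans (by positivity) h4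
  have h6 : (‖S‖ / O.card) ^ 2 ≤ (1 - c / 4) ^ 2 := by nlinarith
  have h7 : ‖S‖ / O.card ≤ 1 - c / 4 := by
    apply le_of_sq_le_sq h6
    linarith
  rwa [div_le_iff₀ hpos] at h7

/-- Uniform density of the finite invariant sets. -/
theorem finite_density {P : Set ℕ} (hP2 : ∀ p ∈ P, 2 ≤ p) (hco : P.Pairwise Nat.Coprime)
    (hP : Dense3 P) {U : Set UnitAddCircle} (hU : IsOpen U) (hUne : U.Nonempty) :
    ∃ c : ℝ, 0 < c ∧ ∃ Q : ℕ, ∀ O : Finset UnitAddCircle, O.Nonempty →
      (∀ p ∈ P, O.image (fun x : UnitAddCircle => p • x) = O) →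
      (∀ y ∈ O, ∀ m : ℕ, 1 ≤ m → m ≤ Q → m • y ≠ 0) →
      c * O.card ≤ ((O : Set UnitAddCircle) ∩ U).ncard := by
  obtain ⟨c, hc, Q, h⟩ := uniform_open hP2 hco hP hU hUne
  refine ⟨c, hc, Q, ?_⟩
  intro O hne hinv hsm
  have hprob := unif_prob hne
  have h1 := h (unif O) hprob (fun p hp => unif_inv (hinv p hp)) (by
    have h2 := unif_real hne (small_finite Q).measurableSet
    have h3 : ((O : Set UnitAddCircle) ∩
        {x : UnitAddCircle | ∃ m : ℕ, 1 ≤ m ∧ m ≤ Q ∧ m • x = 0}) = ∅ := by
      rw [Set.eq_empty_iff_forall_notMem]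
      rintro y ⟨hy, m, h1, h2, h3⟩
      exact hsm y hy m h1 h2 h3
    rw [h3] at h2
    simp only [Set.ncard_empty, Nat.cast_zero, zero_div] at h2
    rw [measureReal_eq_zero_iff] at h2
    exact h2)
  have hpos : (0 : ℝ) < O.card := by exact_mod_cast hne.card_pos
  rw [unif_real hne hU.measurableSet, le_div_iff₀ hpos] at h1
  exact h1

/-- The Fermat numbers. -/
theorem fermat_dense3 : Dense3 (Set.range Nat.fermatNumber) := by
  have hlog2 : (0 : ℝ) < Real.log 2 := Real.log_pos (by norm_num)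
  have hlog2' : Real.log 2 < 1 := by
    have := Real.log_two_lt_d9
    linarith
  have hy : Tendsto (fun x : ℝ => Real.log (Real.log x)) atTop atTop :=
    Real.tendsto_log_atTop.comp Real.tendsto_log_atTop
  have h1 : ∀ᶠ y : ℝ in atTop, 1000 * Real.log y ≤ y - 1 := by
    have h2 : Tendsto (fun y : ℝ => y - 1 - 1000 * Real.log y) atTop atTop := by
      have h3 : (fun y : ℝ => Real.log y) =o[atTop] fun y : ℝ => y := Real.isLittleO_log_id_atTop
      have h4 := h3.def (show (0 : ℝ) < 1 / 2000 by norm_num)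
      apply tendsto_atTop_mono' atTop (f₁ := fun y : ℝ => y / 2 - 1)
      · filter_upwards [h4, eventually_ge_atTop 1] with y hy1 hy2
        rw [Real.norm_of_nonneg (Real.log_nonneg hy2), Real.norm_of_nonneg (by linarith)] at hy1
        linarith
      · apply tendsto_atTop_add_const_right
        exact tendsto_id.atTop_div_const (by norm_num)
    filter_upwards [h2.eventually (eventually_ge_atTop 0)] with y hy
    linarith
  have h5 := hy.eventually h1
  filter_upwards [h5, eventually_ge_atTop (Real.exp (Real.exp 1))] with x hx hx2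
  have hlx : Real.exp 1 ≤ Real.log x := by
    rw [Real.le_log_iff_exp_le (lt_of_lt_of_le (Real.exp_pos _) hx2)]
    exact hx2
  have hx0 : 0 < x := lt_of_lt_of_le (Real.exp_pos _) hx2
  have hlx0 : 0 < Real.log x := lt_of_lt_of_le (Real.exp_pos _) hlx
  have hllx : 1 ≤ Real.log (Real.log x) := by
    rw [Real.le_log_iff_exp_le hlx0]
    exact hlx
  refine le_trans hx ?_
  set n := ⌊Real.log (Real.log x)⌋₊ with hn
  have hn1 : Real.log (Real.log x) - 1 ≤ n := by
    have := Nat.lt_floor_add_one (Real.log (Real.log x))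
    linarith
  refine le_trans hn1 ?_
  have hn2 : (n : ℝ) ≤ Real.log (Real.log x) := Nat.floor_le (by linarith)
  have hsub : (Nat.fermatNumber '' (Set.Iio n)) ⊆ {p ∈ Set.range Nat.fermatNumber | (p : ℝ) ≤ x} := by
    rintro _ ⟨i, hi, rfl⟩
    refine ⟨⟨i, rfl⟩, ?_⟩
    have hi' : i + 1 ≤ n := hi
    have e1 : Nat.fermatNumber i ≤ 2 ^ (2 ^ (i + 1)) := by
      unfold Nat.fermatNumber
      rw [pow_succ 2 i, pow_mul]
      have : 2 ≤ 2 ^ 2 ^ i := by
        calc 2 = 2 ^ 1 := by norm_num
          _ ≤ 2 ^ 2 ^ i := Nat.pow_le_pow_right (by norm_num) Nat.one_le_two_pow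
      nlinarith
    have e2 : (Nat.fermatNumber i : ℝ) ≤ 2 ^ (2 ^ (i + 1)) := by exact_mod_cast e1
    refine le_trans e2 ?_
    rw [← Real.log_le_log_iff (by positivity) hx0, Real.log_pow]
    have e3 : ((2 ^ (i + 1) : ℕ) : ℝ) ≤ Real.log x := by
      rw [← Real.log_le_log_iff (by positivity) hlx0]
      push_cast
      rw [Real.log_pow]
      have e4 : ((i + 1 : ℕ) : ℝ) ≤ n := by exact_mod_cast hi'
      have e5 : ((i + 1 : ℕ) : ℝ) * Real.log 2 ≤ (i + 1 : ℕ) := by
        have : (0 : ℝ) ≤ ((i + 1 : ℕ) : ℝ) := by positivity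
        nlinarith
      linarith
    have : (0 : ℝ) ≤ ((2 ^ (i + 1) : ℕ) : ℝ) := by positivity
    nlinarith
  have hfin : {p ∈ Set.range Nat.fermatNumber | (p : ℝ) ≤ x}.Finite := by
    apply (Set.finite_Iic ⌊x⌋₊).subset
    rintro p ⟨_, hp⟩
    exact Nat.le_floor hp
  have hcard : (Nat.fermatNumber '' (Set.Iio n)).ncard = n := by
    rw [Set.ncard_image_of_injective _ Nat.fermatNumber_injective]
    rw [Set.ncard_eq_toFinset_card']
    simp
  have := Set.ncard_le_ncard hsub hfin
  rw [hcard] at this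
  exact_mod_cast this

end Pool.Agent.H237.Gap
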