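import Mathlib
import Pool.Agent.H237.Gap.Finite

/-!
# Removing the points of small order
-/

namespace Pool.Agent.H237.Gap

open MeasureTheory Set Filter Topology ENNReal

/-- The points of order at most `Q`. -/
def SmallOrder (Q : ℕ) : Set UnitAddCircle := {x | ∃ m : ℕ, 1 ≤ m ∧ m ≤ Q ∧ m • x = 0}

lemma measurableSet_smallOrder (Q : ℕ) : MeasurableSet (SmallOrder Q) :=
  (small_finite Q).measurableSet

/-- The conditional measure on the points which are not of small order. -/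
lemma cond_inv {P : Set ℕ} {μ : Measure UnitAddCircle} [IsProbabilityMeasure μ]
    (hinv : ∀ p ∈ P, Inv μ p) (Q : ℕ) :
    ∀ p ∈ P, Inv (ProbabilityTheory.cond μ (SmallOrder Q)ᶜ) p := by
  intro p hp
  unfold Inv
  have hmp : MeasurePreserving (fun x : UnitAddCircle => p • x) μ μ := hinv p hp
  have hms := measurableSet_smallOrder Q
  have h2 := hmp.restrict_preimage hms.compl
  have h3 : μ.restrict ((fun x : UnitAddCircle => p • x) ⁻¹' (SmallOrder Q)ᶜ) =
      μ.restrict (SmallOrder Q)ᶜ := by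
    apply Measure.restrict_congr_set
    rw [preimage_compl]
    apply EventuallyEq.compl
    have hsub : (SmallOrder Q) ⊆ (fun x : UnitAddCircle => p • x) ⁻¹' (SmallOrder Q) := by
      rintro x ⟨m, h1, h2, h3⟩
      refine ⟨m, h1, h2, ?_⟩
      rw [smul_comm, h3, smul_zero]
    exact (ae_eq_of_subset_of_measure_ge hsub
      (by rw [hmp.measure_preimage hms.nullMeasurableSet])
      hms.nullMeasurableSet (measure_ne_top _ _)).symm
  rw [h3] at h2
  rw [ProbabilityTheory.cond]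
  exact h2.smul_measure _

lemma cond_noSmall (μ : Measure UnitAddCircle) (Q : ℕ) :
    NoSmall (ProbabilityTheory.cond μ (SmallOrder Q)ᶜ) Q := by
  unfold NoSmall
  change (ProbabilityTheory.cond μ (SmallOrder Q)ᶜ) (SmallOrder Q) = 0
  rw [ProbabilityTheory.cond_apply (measurableSet_smallOrder Q).compl]
  simp

theorem density_all {P : Set ℕ} (hP2 : ∀ p ∈ P, 2 ≤ p) (hco : P.Pairwise Nat.Coprime)
    (hP : Dense3 P) {U : Set UnitAddCircle} (hU : IsOpen U) (hUne : U.Nonempty) :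
    ∃ c : ℝ, 0 < c ∧ ∃ Q : ℕ, ∀ μ : Measure UnitAddCircle, IsProbabilityMeasure μ →
      (∀ p ∈ P, Inv μ p) → c * μ.real (SmallOrder Q)ᶜ ≤ μ.real (U \ SmallOrder Q) := by
  obtain ⟨c, hc, Q, h⟩ := uniform_open hP2 hco hP hU hUne
  refine ⟨c, hc, Q, ?_⟩
  intro μ hμ hinv
  by_cases h0 : μ (SmallOrder Q)ᶜ = 0
  · rw [measureReal_def μ (SmallOrder Q)ᶜ, h0]
    simp only [toReal_zero, mul_zero]
    exact measureReal_nonneg
  · have hνp : IsProbabilityMeasure (ProbabilityTheory.cond μ (SmallOrder Q)ᶜ) :=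
      ProbabilityTheory.cond_isProbabilityMeasure h0
    have h1 := h _ hνp (cond_inv hinv Q) (cond_noSmall μ Q)
    rw [measureReal_def, ProbabilityTheory.cond_apply (measurableSet_smallOrder Q).compl,
      ENNReal.toReal_mul, ENNReal.toReal_inv] at h1
    have hpos : 0 < (μ (SmallOrder Q)ᶜ).toReal := ENNReal.toReal_pos h0 (measure_ne_top _ _)
    rw [inv_mul_eq_div, le_div_iff₀ hpos] at h1
    have h2 : (SmallOrder Q)ᶜ ∩ U = U \ SmallOrder Q := by
      rw [inter_comm]
      rfl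
    rw [h2] at h1
    exact h1

theorem density_sets {P : Set ℕ} (hP2 : ∀ p ∈ P, 2 ≤ p) (hco : P.Pairwise Nat.Coprime)
    (hP : Dense3 P) {U : Set UnitAddCircle} (hU : IsOpen U) (hUne : U.Nonempty) :
    ∃ c : ℝ, 0 < c ∧ ∃ Q : ℕ,
      (∀ μ : Measure UnitAddCircle, IsProbabilityMeasure μ →
        (∀ p ∈ P, Inv μ p) → c * μ.real (SmallOrder Q)ᶜ ≤ μ.real (U \ SmallOrder Q)) ∧
      ∀ O : Finset UnitAddCircle, (∀ p ∈ P, O.image (fun x : UnitAddCircle => p • x) = O) →
        c * ((O : Set UnitAddCircle) \ SmallOrder Q).ncard ≤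
          (((O : Set UnitAddCircle) ∩ U) \ SmallOrder Q).ncard := by
  obtain ⟨c, hc, Q, h⟩ := density_all hP2 hco hP hU hUne
  refine ⟨c, hc, Q, h, ?_⟩
  intro O hO
  rcases O.eq_empty_or_nonempty with h0 | hne
  · subst h0
    simp
  have hprob := unif_prob hne
  have h1 := h (unif O) hprob (fun p hp => unif_inv (hO p hp))
  have hpos : (0 : ℝ) < O.card := by exact_mod_cast hne.card_pos
  rw [unif_real hne (measurableSet_smallOrder Q).compl,
    unif_real hne (hU.measurableSet.diff (measurableSet_smallOrder Q)), ← mul_div_assoc,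
    div_le_div_iff_of_pos_right hpos] at h1
  have e1 : (O : Set UnitAddCircle) ∩ (SmallOrder Q)ᶜ = (O : Set UnitAddCircle) \ SmallOrder Q := rfl
  have e2 : (O : Set UnitAddCircle) ∩ (U \ SmallOrder Q) =
      ((O : Set UnitAddCircle) ∩ U) \ SmallOrder Q := by
    ext x
    simp only [mem_inter_iff, Set.mem_sdiff]
    tauto
  rw [e1, e2] at h1
  exact h1

theorem rigid_all {P : Set ℕ} (hP2 : ∀ p ∈ P, 2 ≤ p) (hco : P.Pairwise Nat.Coprime)
    (hP : Dense3 P) :
    (∀ μ : Measure UnitAddCircle, IsProbabilityMeasure μ → (∀ x, μ {x} = 0) →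
      (∀ p ∈ P, Inv μ p) → μ = volume) ↔
    ∀ f : C(UnitAddCircle, ℝ), ∀ ε : ℝ, 0 < ε → ∃ Q : ℕ, ∀ μ : Measure UnitAddCircle,
      IsProbabilityMeasure μ → (∀ p ∈ P, Inv μ p) →
        |(∫ x in (SmallOrder Q)ᶜ, f x ∂μ) - μ.real (SmallOrder Q)ᶜ * ∫ x, f x| ≤ ε := by
  rw [rigid_iff hP2 hco hP]
  constructor
  · intro H f ε hε
    obtain ⟨Q, hQ⟩ := H f ε hε
    refine ⟨Q, ?_⟩
    intro μ hμ hinv
    by_cases h0 : μ (SmallOrder Q)ᶜ = 0
    · rw [Measure.restrict_eq_zero.mpr h0, measureReal_def, h0]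
      simp only [integral_zero_measure, toReal_zero, zero_mul, sub_self, abs_zero]
      exact hε.le
    · have hνp : IsProbabilityMeasure (ProbabilityTheory.cond μ (SmallOrder Q)ᶜ) :=
        ProbabilityTheory.cond_isProbabilityMeasure h0
      have h1 := hQ _ hνp (cond_inv hinv Q) (cond_noSmall μ Q)
      have hpos : 0 < (μ (SmallOrder Q)ᶜ).toReal := ENNReal.toReal_pos h0 (measure_ne_top _ _)
      have hle : (μ (SmallOrder Q)ᶜ).toReal ≤ 1 := by
        have : μ.real (SmallOrder Q)ᶜ ≤ 1 := measureReal_le_one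
        exact this
      rw [ProbabilityTheory.cond, integral_smul_measure, ENNReal.toReal_inv, smul_eq_mul] at h1
      set m := (μ (SmallOrder Q)ᶜ).toReal with hm
      have e1 : (∫ x in (SmallOrder Q)ᶜ, f x ∂μ) - μ.real (SmallOrder Q)ᶜ * ∫ x, f x =
          m * (m⁻¹ * (∫ x in (SmallOrder Q)ᶜ, f x ∂μ) - ∫ x, f x) := by
        rw [measureReal_def, ← hm, mul_sub, ← mul_assoc, mul_inv_cancel₀ hpos.ne', one_mul]
      rw [e1, abs_mul, abs_of_pos hpos]
      calc m * |m⁻¹ * (∫ x in (SmallOrder Q)ᶜ, f x ∂μ) - ∫ x, f x| ≤ 1 * ε :=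
            mul_le_mul hle h1 (abs_nonneg _) zero_le_one
        _ = ε := one_mul ε
  · intro H f ε hε
    obtain ⟨Q, hQ⟩ := H f ε hε
    refine ⟨Q, ?_⟩
    intro μ hμ hinv hsm
    have h1 := hQ μ hμ hinv
    have hsm' : μ (SmallOrder Q) = 0 := hsm
    have h2 : μ.restrict (SmallOrder Q)ᶜ = μ := by
      rw [Measure.restrict_eq_self_of_ae_mem]
      rw [ae_iff]
      simpa using hsm'
    have h3 : μ.real (SmallOrder Q)ᶜ = 1 := by
      rw [probReal_compl_eq_one_sub (measurableSet_smallOrder Q), measureReal_def, hsm']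
      simp
    rw [h2, h3, one_mul] at h1
    exact h1

end Pool.Agent.H237.Gap
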